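import Pool.Agent.Lib.MP_fcf01e_gt.Defs

/-! # Internal definitions for the construction of the counterexample -/

open Complex MeasureTheory

namespace Pool.Agent.StatSurf

/-- The ring `m ≤ |z| < m + 1` (a disc for `m = 0`). -/
def ring (m : ℕ) : Set ℂ := {z | (m : ℝ) ≤ ‖z‖ ∧ ‖z‖ < m + 1}

/-- The radial sign: it changes sign at `r = (j - 1/2) / n`, `j ≥ 1`. -/
noncomputable def rs (n : ℕ) (r : ℝ) : ℝ := (-1) ^ ⌊(n : ℝ) * r + 1 / 2⌋₊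

/-- The pattern of signs on the cells. -/
noncomputable def sg (n : ℕ) (z : ℂ) : ℝ := rs n ‖z‖ * Real.sign (z ^ 3).im

/-- The rotation by `π / 3`. -/
noncomputable def om : ℂ := Complex.exp (((Real.pi / 3 : ℝ) : ℂ) * I)

/-- `μ` is within `η` of `i sg n` on the ring `m`, off a set of measure at most `η`. -/
def Near (m n : ℕ) (η : ℝ) (μ : ℂ → ℂ) : Prop :=
  volume {z ∈ ring m | ¬ (sg n z ≠ 0 ∧ ‖μ z - I * (sg n z : ℂ)‖ ≤ η)} ≤ ENNReal.ofReal η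

/-- `k` is bounded by `M` on the closed ring `m` and `M`-Lipschitz on its radial segments. -/
structure RadLip (m : ℕ) (k : ℂ → ℂ) (M : ℝ) : Prop where
  bound : ∀ z : ℂ, (m : ℝ) ≤ ‖z‖ → ‖z‖ ≤ m + 1 → ‖k z‖ ≤ M
  lip : ∀ u : ℂ, ‖u‖ = 1 → ∀ r r' : ℝ, (m : ℝ) ≤ r → r ≤ m + 1 → (m : ℝ) ≤ r' → r' ≤ m + 1 →
    ‖k (r • u) - k (r' • u)‖ ≤ M * |r - r'|

/-- The phase `exp (i Im g)`. -/
noncomputable def mu (g : ℂ → ℂ) (z : ℂ) : ℂ := exp (I * ((g z).im : ℂ))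

/-- The small numbers attached to the rings. -/
noncomputable def tt (m : ℕ) : ℝ := (1 / 2) ^ m / ((m : ℝ) + 4) ^ 2

/-- The properties of the entire function `g` used in the construction. -/
structure Phase (g : ℂ → ℂ) : Prop where
  diff : Differentiable ℂ g
  anti : ∀ z, g (om * z) = - g z
  near : ∀ m : ℕ, 1 ≤ m → volume {z ∈ ring m | ¬ (‖g z - I * (Real.pi / 2 : ℝ)‖ ≤ (1 / 2) ^ m ∨
    ‖g z + I * (Real.pi / 2 : ℝ)‖ ≤ (1 / 2) ^ m)} ≤ ENNReal.ofReal ((1 / 2) ^ m)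
  ring1 : ∀ m : ℕ, 1 ≤ m → ∀ (k : ℂ → ℂ) (M : ℝ), Measurable k → RadLip m k M →
    ∀ φ : ℂ →L[ℝ] ℂ, ‖φ‖ ≤ 1 → ∀ z : ℂ,
      ‖∫ ζ in ring m, mu g ζ * k ζ * φ ((z - ζ)⁻¹)‖ ≤ tt m * M / (1 + ‖z‖)
  ring3 : ∀ m : ℕ, 1 ≤ m → ∀ (k : ℂ → ℂ) (M : ℝ), Measurable k → RadLip m k M →
    ∀ φ : ℂ →L[ℝ] ℂ, ‖φ‖ ≤ 1 → ∀ z : ℂ, 2 * ((m : ℝ) + 1) ≤ ‖z‖ →
      ‖∫ ζ in ring m, mu g ζ * k ζ * φ (ζ ^ 3 / (z ^ 3 * (z - ζ)))‖ ≤ tt m * M / ‖z‖ ^ 4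

/-- The logarithmic potential of `f` on the ring `m` (normalised to vanish at `0` if `m ≥ 1`). -/
noncomputable def pot (m : ℕ) (f : ℂ → ℂ) (z : ℂ) : ℂ :=
  ∫ ζ in ring m, f ζ * ((Real.log ‖z - ζ‖ - (if m = 0 then 0 else Real.log ‖ζ‖) : ℝ) : ℂ)

/-- The Cauchy transform of `f` on the ring `m`. -/
noncomputable def V (m : ℕ) (f : ℂ → ℂ) (z : ℂ) : ℂ := ∫ ζ in ring m, f ζ * (z - ζ)⁻¹

/-- The conjugate Cauchy transform of `f` on the ring `m`. -/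
noncomputable def Vc (m : ℕ) (f : ℂ → ℂ) (z : ℂ) : ℂ :=
  ∫ ζ in ring m, f ζ * (starRingEnd ℂ) ((z - ζ)⁻¹)

/-- The derivative of `pot m f`: `h ↦ (V h + Vc \bar h) / 2`. -/
noncomputable def dpot (m : ℕ) (f : ℂ → ℂ) (z : ℂ) : ℂ →L[ℝ] ℂ :=
  (V m f z / 2) • (ContinuousLinearMap.id ℝ ℂ) + (Vc m f z / 2) • (conjCLE : ℂ →L[ℝ] ℂ)

/-- `w` is `C^1`, with `|w 0| ≤ κ` and `|D w (z)| ≤ κ / (1 + |z|)`. -/
structure Cls (w : ℂ → ℂ) (κ : ℝ) : Prop where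
  c1 : ContDiff ℝ 1 w
  zero : ‖w 0‖ ≤ κ
  grad : ∀ z, ‖fderiv ℝ w z‖ ≤ κ / (1 + ‖z‖)

/-- `w` solves the integral form of `Δ w = - 2 π c μ e^w`. -/
structure Sol (g : ℂ → ℂ) (c : ℝ) (w : ℂ → ℂ) : Prop where
  cls : Cls w (1 / 4)
  sym : ∀ z, w (om * z) = (starRingEnd ℂ) (w z)
  eqn : ∀ z, HasSum (fun m => (-c) • dpot m (fun ζ => mu g ζ * exp (w ζ)) z) (fderiv ℝ w z)

/-- Uniform approximation by polynomials on `K`. -/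
def Appr (K : Set ℂ) (f : ℂ → ℂ) : Prop :=
  ∀ ε > 0, ∃ p : Polynomial ℂ, ∀ z ∈ K, ‖f z - p.eval z‖ ≤ ε

/-- The closed cells of the ring `m`. -/
def Kset (m n : ℕ) (θ : ℝ) : Set ℂ :=
  {z | (m : ℝ) + θ ≤ ‖z‖ ∧ ‖z‖ ≤ m + 1 - θ ∧
    (∀ j ∈ Finset.Icc 1 (n * (m + 1) + 1), θ ≤ |(n : ℝ) * ‖z‖ + 1 / 2 - (j : ℝ)|) ∧
    θ * ‖z‖ ^ 3 ≤ |(z ^ 3).im|}

/-- The regularised Cauchy kernel. -/
noncomputable def Ka (a : ℝ) (ζ : ℂ) : ℂ := (starRingEnd ℂ) ζ / ((‖ζ‖ ^ 2 + a ^ 2 : ℝ) : ℂ)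

/-- The Laplacian. -/
noncomputable def lap {E : Type*} [NormedAddCommGroup E] [NormedSpace ℝ E] (f : ℂ → E) (z : ℂ) : E :=
  pd 0 (pd 0 f) z + pd 1 (pd 1 f) z

end Pool.Agent.StatSurf
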