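import Mathlib

/-! # Partial derivatives in the plane -/

namespace Pool.Agent.StatSurf

/-- The coordinate vectors `∂_s = 1` and `∂_t = i` of the parameter plane. -/
def e (i : Fin 2) : ℂ := if i = 0 then 1 else Complex.I

/-- The partial derivative in the direction of the `i`-th coordinate of the plane. -/
noncomputable def pd {E : Type*} [NormedAddCommGroup E] [NormedSpace ℝ E] (i : Fin 2) (f : ℂ → E)
    (z : ℂ) : E := fderiv ℝ f z (e i)

end Pool.Agent.StatSurf
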