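import Mathlib

set_option autoImplicit false

open Metric Set MeasureTheory Filter Topology

namespace Pool.Agent.StatSurf.Pompeiu

/-- The Wirtinger derivative with respect to the conjugate variable. -/
noncomputable def dbar (F : ℂ → ℂ) (z : ℂ) : ℂ :=
  (1 / 2) * (fderiv ℝ F z 1 + Complex.I * fderiv ℝ F z Complex.I)

theorem dbar_eq_zero_of_differentiableAt {F : ℂ → ℂ} {z : ℂ} (h : DifferentiableAt ℂ F z) :
    dbar F z = 0 := by
  have h1 : HasFDerivAt F ((fderiv ℂ F z).restrictScalars ℝ) z :=
    h.hasFDerivAt.restrictScalars ℝ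
  rw [dbar, h1.fderiv]
  have : (fderiv ℂ F z) Complex.I = Complex.I * (fderiv ℂ F z) 1 := by
    have := (fderiv ℂ F z).map_smul Complex.I 1
    simp only [smul_eq_mul, mul_one] at this
    exact this
  simp only [ContinuousLinearMap.coe_restrictScalars', this]
  linear_combination (1 / 2 * (fderiv ℂ F z) 1) * Complex.I_mul_I

theorem cauchy_pompeiu {F : ℂ → ℂ} (hF : ContDiff ℝ 1 F) (hc : HasCompactSupport F) (x : ℂ) :
    ∫ ζ : ℂ, dbar F ζ / (x - ζ) = Real.pi * F x := by
  -- a radius outside of which everything vanishes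
  obtain ⟨R, hR0, hR⟩ : ∃ R > 0, ∀ ζ : ℂ, R ≤ ‖ζ - x‖ → ζ ∉ tsupport F := by
    obtain ⟨R, hR⟩ := hc.isCompact.isBounded.subset_ball x
    refine ⟨max R 1, by positivity, fun ζ hζ hmem => ?_⟩
    have := hR hmem
    rw [mem_ball, dist_eq_norm] at this
    linarith [le_max_left R 1]
  have hF0 : ∀ ζ : ℂ, R ≤ ‖ζ - x‖ → F ζ = 0 := fun ζ hζ => image_eq_zero_of_notMem_tsupport (hR ζ hζ)
  have hD0 : ∀ ζ : ℂ, R ≤ ‖ζ - x‖ → fderiv ℝ F ζ = 0 := by
    intro ζ hζ
    apply image_eq_zero_of_notMem_tsupport
    exact fun h => hR ζ hζ (tsupport_fderiv_subset ℝ h)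
  have hdiff : Differentiable ℝ F := hF.differentiable one_ne_zero
  have hcontD : Continuous (fderiv ℝ F) := hF.continuous_fderiv one_ne_zero
  set e : ℝ → ℂ := fun θ => (Real.cos θ : ℂ) + (Real.sin θ : ℂ) * Complex.I with he
  have hecont : Continuous e := by
    simp only [he]; fun_prop
  have hnorm : ∀ θ, ‖e θ‖ = 1 := by
    intro θ
    have : e θ = Complex.exp (θ * Complex.I) := by
      simp [he, Complex.exp_mul_I]
    rw [this, Complex.norm_exp_ofReal_mul_I]
  set A : ℝ × ℝ → ℂ := fun p => fderiv ℝ F (x + p.1 * e p.2) (e p.2) with hA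
  set B : ℝ × ℝ → ℂ := fun p => fderiv ℝ F (x + p.1 * e p.2) (Complex.I * e p.2) with hB
  have hpt : Continuous (fun p : ℝ × ℝ => x + p.1 * e p.2) := by fun_prop
  have hAc : Continuous A := (hcontD.comp hpt).clm_apply (hecont.comp continuous_snd)
  have hBc : Continuous B :=
    (hcontD.comp hpt).clm_apply (continuous_const.mul (hecont.comp continuous_snd))
  have hnormpt : ∀ p : ℝ × ℝ, 0 < p.1 → ‖x + p.1 * e p.2 - x‖ = p.1 := by
    intro p hp
    rw [add_sub_cancel_left, norm_mul, hnorm, mul_one, Complex.norm_real, Real.norm_of_nonneg hp.le]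
  set S : Set (ℝ × ℝ) := Ioi 0 ×ˢ Ioo (-Real.pi) Real.pi with hS
  have hSm : MeasurableSet S := measurableSet_Ioi.prod measurableSet_Ioo
  have hzero : ∀ p ∈ S \ (Icc 0 R ×ˢ Icc (-Real.pi) Real.pi), R ≤ ‖x + p.1 * e p.2 - x‖ := by
    intro p hp
    rw [hS, Set.mem_sdiff, mem_prod, mem_prod, mem_Ioi, mem_Ioo, mem_Icc, mem_Icc] at hp
    rw [hnormpt p hp.1.1]
    by_contra hlt
    exact hp.2 ⟨⟨hp.1.1.le, (not_le.mp hlt).le⟩, ⟨hp.1.2.1.le, hp.1.2.2.le⟩⟩
  have hcpt : IsCompact (Icc 0 R ×ˢ Icc (-Real.pi) Real.pi : Set (ℝ × ℝ)) :=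
    isCompact_Icc.prod isCompact_Icc
  have hAint : IntegrableOn A S (volume.prod volume) := by
    refine IntegrableOn.of_forall_sdiff_eq_zero (hAc.continuousOn.integrableOn_compact hcpt) hSm ?_
    intro p hp
    simp [hA, hD0 _ (hzero p hp)]
  have hBint : IntegrableOn B S (volume.prod volume) := by
    refine IntegrableOn.of_forall_sdiff_eq_zero (hBc.continuousOn.integrableOn_compact hcpt) hSm ?_
    intro p hp
    simp [hB, hD0 _ (hzero p hp)]
  -- the integral of A
  have hIA : ∫ p in S, A p ∂(volume.prod volume) = -(2 * Real.pi) * F x := by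
    rw [hS, ← setIntegral_prod_swap, setIntegral_prod]
    · have hinner : ∀ θ : ℝ, ∫ r in Ioi (0 : ℝ), A (Prod.swap (θ, r)) = - F x := by
        intro θ
        have h := integral_Ioi_of_hasDerivAt_of_tendsto (a := 0)
          (f := fun r : ℝ => F (x + r * e θ)) (f' := fun r => A (r, θ)) (m := 0) ?_ ?_ ?_ ?_
        · simpa using h
        · apply Continuous.continuousWithinAt
          exact hF.continuous.comp (by fun_prop)
        · intro r _
          have h1 : HasFDerivAt F (fderiv ℝ F (x + r * e θ)) (x + r * e θ) :=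
            (hdiff _).hasFDerivAt
          have h2 : HasDerivAt (fun r : ℝ => x + (r : ℂ) * e θ) (e θ) r := by
            have := (Complex.ofRealCLM.hasDerivAt (x := r)).mul_const (e θ)
            simpa using this.const_add x
          exact h1.comp_hasDerivAt r h2
        · refine IntegrableOn.of_forall_sdiff_eq_zero (s := Icc 0 R) ?_ measurableSet_Ioi ?_
          · apply ContinuousOn.integrableOn_compact isCompact_Icc
            apply Continuous.continuousOn
            exact hAc.comp (by fun_prop)
          · intro r hr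
            have hr0 : 0 < r := hr.1
            have hrR : R ≤ r := by
              by_contra h
              exact hr.2 ⟨hr0.le, (not_le.mp h).le⟩
            have : R ≤ ‖x + r * e θ - x‖ := by
              rw [hnormpt (r, θ) hr0]; exact hrR
            simp [hA, hD0 _ this]
        · refine tendsto_const_nhds.congr' ?_
          filter_upwards [eventually_ge_atTop R] with r hr
          have hr0 : 0 < r := lt_of_lt_of_le hR0 hr
          rw [hF0]
          rw [hnormpt (r, θ) hr0]; exact hr
      simp_rw [hinner]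
      rw [setIntegral_const]
      simp only [measureReal_def, Real.volume_Ioo]
      rw [ENNReal.toReal_ofReal (by linarith [Real.pi_pos]), Complex.real_smul]
      push_cast; ring
    · exact hAint.swap
  -- the integral of B
  have hIB : ∫ p in S, B p ∂(volume.prod volume) = 0 := by
    rw [hS, setIntegral_prod _ hBint]
    have hinner : ∀ r ∈ Ioi (0 : ℝ), ∫ θ in Ioo (-Real.pi) Real.pi, B (r, θ) = 0 := by
      intro r hr
      have hr0 : (0 : ℝ) < r := hr
      rw [← integral_Ioc_eq_integral_Ioo, ← intervalIntegral.integral_of_le (by linarith [Real.pi_pos])]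
      have hder : ∀ θ : ℝ, HasDerivAt (fun θ : ℝ => (r : ℂ)⁻¹ * F (x + r * e θ)) (B (r, θ)) θ := by
        intro θ
        have h1 : HasFDerivAt F (fderiv ℝ F (x + r * e θ)) (x + r * e θ) :=
          (hdiff _).hasFDerivAt
        have h2 : HasDerivAt e (Complex.I * e θ) θ := by
          have hcos : HasDerivAt (fun θ : ℝ => (Real.cos θ : ℂ)) ((-Real.sin θ : ℝ) : ℂ) θ :=
            (Real.hasDerivAt_cos θ).ofReal_comp
          have hsin : HasDerivAt (fun θ : ℝ => (Real.sin θ : ℂ)) ((Real.cos θ : ℝ) : ℂ) θ :=
            (Real.hasDerivAt_sin θ).ofReal_comp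
          have h3 := hcos.add (hsin.mul_const Complex.I)
          refine h3.congr_deriv ?_
          simp only [he]
          push_cast
          linear_combination (-(Complex.sin θ)) * Complex.I_mul_I
        have h3 : HasDerivAt (fun θ : ℝ => x + (r : ℂ) * e θ) ((r : ℂ) * (Complex.I * e θ)) θ :=
          (h2.const_mul (r : ℂ)).const_add x
        have h4 := (h1.comp_hasDerivAt θ h3).const_mul ((r : ℂ)⁻¹)
        refine h4.congr_deriv ?_
        have h5 : fderiv ℝ F (x + r * e θ) ((r : ℂ) * (Complex.I * e θ)) =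
            r * fderiv ℝ F (x + r * e θ) (Complex.I * e θ) := by
          have := (fderiv ℝ F (x + r * e θ)).map_smul r (Complex.I * e θ)
          simpa [Complex.real_smul] using this
        rw [h5]
        have : (r : ℂ) ≠ 0 := by exact_mod_cast hr0.ne'
        simp only [hB]
        field_simp
      rw [intervalIntegral.integral_eq_sub_of_hasDerivAt (fun θ _ => hder θ)]
      · have : e (-Real.pi) = e Real.pi := by simp [he]
        rw [this, sub_self]
      · apply Continuous.intervalIntegrable
        exact hBc.comp (by fun_prop)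
    rw [setIntegral_congr_fun measurableSet_Ioi hinner]
    simp
  -- assemble
  have hstart : ∫ ζ : ℂ, dbar F ζ / (x - ζ) = ∫ w : ℂ, dbar F (x + w) / (x - (x + w)) :=
    (integral_add_left_eq_self (fun ζ => dbar F ζ / (x - ζ)) x).symm
  rw [hstart, ← Complex.integral_comp_polarCoord_symm, polarCoord_target, ← hS]
  have hcongr : ∀ p ∈ S, p.1 • (dbar F (x + Complex.polarCoord.symm p) /
      (x - (x + Complex.polarCoord.symm p))) = (-1 / 2 : ℂ) * (A p + Complex.I * B p) := by
    intro p hp
    have hp0 : 0 < p.1 := hp.1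
    rw [Complex.polarCoord_symm_apply]
    change p.1 • (dbar F (x + p.1 * e p.2) / (x - (x + p.1 * e p.2))) = _
    have hene : e p.2 ≠ 0 := by
      intro h
      have := hnorm p.2
      rw [h, norm_zero] at this
      exact zero_ne_one this
    have hpne : (p.1 : ℂ) ≠ 0 := by exact_mod_cast hp0.ne'
    set D := fderiv ℝ F (x + p.1 * e p.2) with hD
    have hDe : D (e p.2) = Real.cos p.2 * D 1 + Real.sin p.2 * D Complex.I := by
      have : e p.2 = (Real.cos p.2) • (1 : ℂ) + (Real.sin p.2) • Complex.I := by
        simp [he, Complex.real_smul]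
      rw [this, map_add, map_smul, map_smul, Complex.real_smul, Complex.real_smul]
    have hDIe : D (Complex.I * e p.2) = -Real.sin p.2 * D 1 + Real.cos p.2 * D Complex.I := by
      have : Complex.I * e p.2 = (-Real.sin p.2) • (1 : ℂ) + (Real.cos p.2) • Complex.I := by
        simp only [he, Complex.real_smul]
        push_cast
        linear_combination (Complex.sin p.2) * Complex.I_mul_I
      rw [this, map_add, map_smul, map_smul, Complex.real_smul, Complex.real_smul]
      push_cast; ring
    have hAB : A p + Complex.I * B p = (Real.cos p.2 - Real.sin p.2 * Complex.I) *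
        (D 1 + Complex.I * D Complex.I) := by
      simp only [hA, hB]
      rw [← hD, hDe, hDIe]
      linear_combination ((Real.sin p.2 * D Complex.I : ℂ)) * Complex.I_mul_I
    have hinv : (Real.cos p.2 - Real.sin p.2 * Complex.I : ℂ) * e p.2 = 1 := by
      simp only [he]
      have h1 : ((Real.cos p.2 : ℂ)) ^ 2 + (Real.sin p.2 : ℂ) ^ 2 = 1 := by
        have := Real.cos_sq_add_sin_sq p.2
        exact_mod_cast this
      linear_combination h1 - (Real.sin p.2 : ℂ) ^ 2 * Complex.I_mul_I
    have hden : x - (x + p.1 * e p.2) = -(p.1 * e p.2) := by ring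
    rw [hAB, dbar, ← hD, Complex.real_smul, hden, eq_inv_of_mul_eq_one_left hinv]
    field_simp
  rw [setIntegral_congr_fun hSm hcongr]
  have hvol : (volume : Measure (ℝ × ℝ)) = volume.prod volume := rfl
  rw [hvol, integral_const_mul, integral_add hAint (hBint.const_mul _), integral_const_mul, hIA, hIB]
  ring

end Pool.Agent.StatSurf.Pompeiu
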