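import Pool.Agent.Lib.MP_fcf01e_gt.SpFrame

set_option autoImplicit false

/-!
The orthonormal normal frame, its smoothness, and the normal curvature.
-/

namespace Pool.Agent.Lib.MP_fcf01e_gt

open Pool.Agent.Lib.MP_364e81_gt

open Complex MeasureTheory Filter Topology ComplexConjugate
open scoped ContDiff

namespace Sp

variable (S : Sp)

noncomputable section

/-! ### Smoothness -/

theorem smooth_s (i : Fin 2) : ContDiff ℝ ∞ (S.s i) := by
  have h : Differentiable ℂ (S.s i) := fun z => (S.hs i z).differentiableAt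
  exact (h.contDiff (n := ∞)).restrict_scalars ℝ

theorem smooth_t (i : Fin 2) : ContDiff ℝ ∞ (S.t i) := by
  have h : Differentiable ℂ (S.t i) := fun z => (S.ht i z).differentiableAt
  exact (h.contDiff (n := ∞)).restrict_scalars ℝ

theorem smooth_conj {f : ℂ → ℂ} (h : ContDiff ℝ ∞ f) : ContDiff ℝ ∞ fun z => conj (f z) :=
  (conjCLE : ℂ →L[ℝ] ℂ).contDiff.comp h

theorem smooth_x : ContDiff ℝ ∞ S.x := by
  rw [contDiff_pi]
  intro j
  have h : Differentiable ℂ (S.F j) := fun z => (S.hasDerivAt_F j z).differentiableAt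
  exact reCLM.contDiff.comp ((h.contDiff (n := ∞)).restrict_scalars ℝ)

theorem smooth_E : ContDiff ℝ ∞ S.E :=
  ((S.smooth_s 0).mul (smooth_conj (S.smooth_t 1))).sub
    ((S.smooth_s 1).mul (smooth_conj (S.smooth_t 0)))

theorem smooth_N : ContDiff ℝ ∞ S.N := by
  rw [N_eq]
  exact reCLM.contDiff.comp (S.smooth_E.mul (smooth_conj S.smooth_E))

theorem smooth_Y (j : Fin 4) : ContDiff ℝ ∞ (S.Y j) := by
  have h : ∀ i j, ContDiff ℝ ∞ fun z => S.s i z * conj (S.s j z) := fun i j =>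
    (S.smooth_s i).mul (smooth_conj (S.smooth_s j))
  fin_cases j
  · exact ((h 0 0).add (h 1 1)).mul contDiff_const
  · exact h 0 1
  · exact contDiff_const.mul (h 0 1)
  · exact ((h 0 0).sub (h 1 1)).mul contDiff_const

theorem smooth_Y' (j : Fin 4) : ContDiff ℝ ∞ (S.Y' j) := by
  have h : ∀ i j, ContDiff ℝ ∞ fun z => S.t i z * conj (S.t j z) := fun i j =>
    (S.smooth_t i).mul (smooth_conj (S.smooth_t j))
  fin_cases j
  · exact ((h 0 0).add (h 1 1)).mul contDiff_const
  · exact h 1 0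
  · exact contDiff_const.mul (h 1 0)
  · exact ((h 0 0).sub (h 1 1)).mul contDiff_const

theorem smooth_y : ContDiff ℝ ∞ S.y := by
  rw [contDiff_pi]
  exact fun j => reCLM.contDiff.comp (S.smooth_Y j)

theorem smooth_y' : ContDiff ℝ ∞ S.y' := by
  rw [contDiff_pi]
  exact fun j => reCLM.contDiff.comp (S.smooth_Y' j)

/-- The normalising factor. -/
def rho (z : ℂ) : ℝ := (√(S.N z))⁻¹

theorem rho_sq (z : ℂ) : S.rho z ^ 2 * S.N z = 1 := by
  have h := S.N_pos z
  unfold rho
  rw [inv_pow, Real.sq_sqrt h.le]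
  exact inv_mul_cancel₀ h.ne'

theorem smooth_rho : ContDiff ℝ ∞ S.rho := by
  refine ContDiff.inv (S.smooth_N.sqrt fun z => (S.N_pos z).ne') fun z => ?_
  exact (Real.sqrt_pos.mpr (S.N_pos z)).ne'

/-! ### The frame -/

def e3 (z : ℂ) : Fin 4 → ℝ := S.rho z • (S.y z - S.y' z)

def e4 (z : ℂ) : Fin 4 → ℝ := S.rho z • (S.y z + S.y' z)

theorem smooth_e3 : ContDiff ℝ ∞ S.e3 := S.smooth_rho.smul (S.smooth_y.sub S.smooth_y')

theorem smooth_e4 : ContDiff ℝ ∞ S.e4 := S.smooth_rho.smul (S.smooth_y.add S.smooth_y')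

theorem lor_add_right (a b c : Fin 4 → ℝ) : lor a (b + c) = lor a b + lor a c := by
  simp [lor]
  ring

theorem lor_sub_right (a b c : Fin 4 → ℝ) : lor a (b - c) = lor a b - lor a c := by
  simp [lor]
  ring

theorem norm_e3 (z : ℂ) : lor (S.e3 z) (S.e3 z) = 1 := by
  have h := S.rho_sq z
  unfold e3
  rw [lor_smul_left, lor_smul_right, lor_sub_left, lor_sub_right, lor_sub_right, lor_y_y,
    lor_y'_y', lor_comm (S.y' z), lor_y_y']
  linear_combination h

theorem norm_e4 (z : ℂ) : lor (S.e4 z) (S.e4 z) = -1 := by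
  have h := S.rho_sq z
  unfold e4
  rw [lor_smul_left, lor_smul_right, lor_add_left, lor_add_right, lor_add_right, lor_y_y,
    lor_y'_y', lor_comm (S.y' z), lor_y_y']
  linear_combination -h

theorem orth_e (z : ℂ) : lor (S.e3 z) (S.e4 z) = 0 := by
  unfold e3 e4
  rw [lor_smul_left, lor_smul_right, lor_sub_left, lor_add_right, lor_add_right, lor_y_y,
    lor_y'_y', lor_comm (S.y' z), lor_y_y']
  ring

theorem normal_y (z : ℂ) : lor (S.y z) (pu S.x z) = 0 ∧ lor (S.y z) (pv S.x z) = 0 := by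
  rw [pu_x, pv_x]
  constructor <;>
  · simp only [lor, y, Y, dF, Matrix.cons_val_zero, Matrix.cons_val_one,
      Matrix.cons_val, add_re, mul_re, sub_re, neg_re, neg_im, I_re, I_im, mul_im, sub_im, add_im,
      conj_re, conj_im]
    norm_num
    ring

theorem normal_y' (z : ℂ) : lor (S.y' z) (pu S.x z) = 0 ∧ lor (S.y' z) (pv S.x z) = 0 := by
  rw [pu_x, pv_x]
  constructor <;>
  · simp only [lor, y', Y', dF, Matrix.cons_val_zero, Matrix.cons_val_one,
      Matrix.cons_val, add_re, mul_re, sub_re, neg_re, neg_im, I_re, I_im, mul_im, sub_im, add_im,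
      conj_re, conj_im]
    norm_num
    ring

theorem isNormalFrame : IsNormalFrame S.x S.e3 S.e4 where
  smooth3 := S.smooth_e3
  smooth4 := S.smooth_e4
  norm3 := S.norm_e3
  norm4 := S.norm_e4
  orth := S.orth_e
  normal3u z := by
    unfold e3
    rw [lor_smul_left, lor_sub_left, (S.normal_y z).1, (S.normal_y' z).1]
    ring
  normal3v z := by
    unfold e3
    rw [lor_smul_left, lor_sub_left, (S.normal_y z).2, (S.normal_y' z).2]
    ring
  normal4u z := by
    unfold e4
    rw [lor_smul_left, lor_add_left, (S.normal_y z).1, (S.normal_y' z).1]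
    ring
  normal4v z := by
    unfold e4
    rw [lor_smul_left, lor_add_left, (S.normal_y z).2, (S.normal_y' z).2]
    ring

/-! ### The connection form -/

theorem omega_aux (z d : ℂ) : lor (fderiv ℝ S.e3 z d) (S.e4 z) =
    S.rho z ^ 2 * (lor (fderiv ℝ S.y z d) (S.y' z) - lor (fderiv ℝ S.y' z d) (S.y z)) := by
  have h1 : DifferentiableAt ℝ S.rho z := S.smooth_rho.differentiable (by simp) z
  have h2 : DifferentiableAt ℝ (fun z => S.y z - S.y' z) z := (S.diff_y z).sub (S.diff_y' z)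
  have h3 : fderiv ℝ S.e3 z d = S.rho z • (fderiv ℝ S.y z d - fderiv ℝ S.y' z d) +
      fderiv ℝ S.rho z d • (S.y z - S.y' z) := by
    have := smul_fderiv h1 h2 d
    have h4 : fderiv ℝ (fun z => S.y z - S.y' z) z d = fderiv ℝ S.y z d - fderiv ℝ S.y' z d := by
      rw [fderiv_fun_sub (S.diff_y z) (S.diff_y' z)]
      rfl
    rw [h4] at this
    exact this
  have h5 : lor (fderiv ℝ S.y z d) (S.y z) = 0 := lor_self_fderiv S.diff_y S.lor_y_y z d
  have h6 : lor (fderiv ℝ S.y' z d) (S.y' z) = 0 := lor_self_fderiv S.diff_y' S.lor_y'_y' z d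
  have h7 := S.lor_y_y z
  have h8 := S.lor_y'_y' z
  have h9 := lor_comm (S.y z) (S.y' z)
  rw [h3]
  unfold e4
  simp only [lor_add_left, lor_smul_left, lor_sub_left, lor_smul_right, lor_add_right, h5, h6,
    h7, h8, h9]
  ring

theorem div_E (w z : ℂ) : w / S.E z = S.rho z ^ 2 * (w * conj (S.E z)) := by
  have h := S.rho_sq z
  have hE : S.E z ≠ 0 := S.hE z
  have h1 : (S.rho z : ℂ) ^ 2 * (S.E z * conj (S.E z)) = 1 := by
    rw [mul_conj]
    exact_mod_cast h
  rw [div_eq_iff hE]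
  linear_combination -w * h1

theorem omega_u (z : ℂ) : lor (pu S.e3 z) (S.e4 z) = (-((S.Ez z - S.Eb z) / S.E z)).re := by
  have h := S.omega_u_aux z
  unfold pu at h ⊢
  rw [omega_aux, h, div_E]
  rw [neg_re, ← ofReal_pow, re_ofReal_mul]
  ring

theorem omega_v (z : ℂ) : lor (pv S.e3 z) (S.e4 z) = (-I * ((S.Ez z + S.Eb z) / S.E z)).re := by
  have h := S.omega_v_aux z
  unfold pv at h ⊢
  rw [omega_aux, h, div_E]
  simp only [← ofReal_pow, mul_re, mul_im, neg_re, neg_im, I_re, I_im, ofReal_re, ofReal_im]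
  ring

theorem normalK_area (z : ℂ) :
    normalK S.x S.e3 S.e4 z * area S.x z = 4 * (S.kap z / S.E z ^ 2).im := by
  have hE : ∀ z, S.E z ≠ 0 := S.hE
  have hu : ∀ z, HasW (fun z => -((S.Ez z - S.Eb z) / S.E z)) _ _ z := fun z =>
    (((S.hasW_Ez z).sub (S.hasW_Eb z)).div (S.hasW_E z) (hE z)).neg
  have hv : ∀ z, HasW (fun z => -I * ((S.Ez z + S.Eb z) / S.E z)) _ _ z := fun z =>
    (((S.hasW_Ez z).add (S.hasW_Eb z)).div (S.hasW_E z) (hE z)).const_mul (-I)
  have h := normalK_eq (x := S.x) (S.smooth_e3.differentiable (by simp))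
    (S.smooth_e4.differentiable (by simp)) S.norm_e3 S.norm_e4 S.orth_e S.omega_u S.omega_v
    (fun z => (hu z).re_fderiv.differentiableAt) (fun z => (hv z).re_fderiv.differentiableAt) z
  have hA : area S.x z ≠ 0 := by
    rw [area_x]
    exact (S.N_pos z).ne'
  rw [h, div_mul_cancel₀ _ hA, (hv z).pu_re, (hu z).pv_re, ← kap_eq, ← sub_re]
  have e : ∀ a : ℂ, 4 * a.im = (-I * (4 * a)).re := by
    intro a
    simp
  rw [e]
  congr 1
  have := hE z
  field_simp
  linear_combination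
    (S.E z * S.Ez z * 0 : ℂ) * I_sq

end

end Sp

end Pool.Agent.Lib.MP_fcf01e_gt
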