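import Pool.Agent.Lib.MP_fcf01e_gt.Mg.G008
import Pool.Agent.Lib.MP_fcf01e_gt.Mg.G001
import Pool.Agent.Lib.MP_fcf01e_gt.Mg.G007

/-! # The counterexample, assembled on the surface of `SpFinal` -/

open Complex MeasureTheory
open Pool.Agent.Lib.MP_fcf01e_gt
open Pool.Agent.Lib.MP_364e81_gt (HasW wlin wlin_apply)

namespace Pool.Agent.StatSurf

theorem Fin2_dz_of_hasW {f : ℂ → ℂ} {a b z : ℂ} (h : HasW f a b z) : dz f z = a ∧ dzb f z = b := by
  rw [G2_dz, G2_dzb, h.hasFDerivAt.fderiv, wlin_apply, wlin_apply]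
  simp only [map_one, conj_I]
  constructor
  · linear_combination (-(1 / 2) * a + (1 / 2) * b) * I_sq
  · linear_combination ((1 / 2) * a - (1 / 2) * b) * I_sq

/-- From a solution of the complex Liouville equation to the surface. -/
theorem surface_of_liouville {l : ℂ → ℂ} (hl : ContDiff ℝ (⊤ : ℕ∞) l)
    (hL : ∀ z, lap l z = -2 * exp (l z))
    (hC : ∃ C : ℝ, ∀ z, (l z).re ≤ C + 1 / 4 * Real.log (1 + ‖z‖))
    (hre : ∫⁻ z, ENNReal.ofReal |(exp (l z)).re| < ⊤)
    (him : ∫⁻ z, ENNReal.ofReal |(exp (l z)).im| = ⊤) :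
    ∃ x e3 e4 : ℂ → Fin 4 → ℝ,
      ContDiff ℝ (⊤ : ℕ∞) x ∧ Pool.Agent.Lib.MP_364e81_gt.IsSpacelike x ∧
      Pool.Agent.Lib.MP_364e81_gt.IsStationary x ∧
      Pool.Agent.Lib.MP_364e81_gt.IsCompleteSurface x ∧
      Pool.Agent.Lib.MP_364e81_gt.IsNormalFrame x e3 e4 ∧
      Integrable (fun z => |Pool.Agent.Lib.MP_364e81_gt.gaussK x z| *
        Pool.Agent.Lib.MP_364e81_gt.area x z) ∧
      ∫⁻ z, ENNReal.ofReal (|Pool.Agent.Lib.MP_364e81_gt.normalK x e3 e4 z| *
        Pool.Agent.Lib.MP_364e81_gt.area x z) = ⊤ := by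
  obtain ⟨a₁, a₂, c₁, c₂, ha₁, ha₂, hc₁, hc₂, hF⟩ := liouville_decomp hl hL
  let S : Sp :=
    { s := ![a₁, a₂]
      ds := ![deriv a₁, deriv a₂]
      dds := ![deriv (deriv a₁), deriv (deriv a₂)]
      t := ![c₁, c₂]
      dt := ![deriv c₁, deriv c₂]
      ddt := ![deriv (deriv c₁), deriv (deriv c₂)]
      hs := fun i z => by
        fin_cases i
        · exact (ha₁ z).hasDerivAt
        · exact (ha₂ z).hasDerivAt
      hds := fun i z => by
        fin_cases i
        · exact (ha₁.deriv z).hasDerivAt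
        · exact (ha₂.deriv z).hasDerivAt
      ht := fun i z => by
        fin_cases i
        · exact (hc₁ z).hasDerivAt
        · exact (hc₂ z).hasDerivAt
      hdt := fun i z => by
        fin_cases i
        · exact (hc₁.deriv z).hasDerivAt
        · exact (hc₂.deriv z).hasDerivAt
      hE := fun z => by
        have h := hF z
        have h2 : exp (-l z / 2) ≠ 0 := exp_ne_zero _
        rw [h] at h2
        exact h2 }
  have hE : S.E = fun z => exp ((-(1 / 2) : ℂ) * l z) := by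
    funext z
    have h : S.E z = exp (-l z / 2) := (hF z).symm
    rw [h]
    congr 1
    ring
  have hl0 : ∀ n : ℕ, ContDiff ℝ n l := G2_of_top hl
  have hl1 : ∀ n : ℕ, ContDiff ℝ n (dz l) := fun n => (G2_contDiff l n (hl0 (n + 1))).1
  have hd0 : Differentiable ℝ l := (hl0 1).differentiable (by norm_num)
  have hd1 : Differentiable ℝ (dz l) := (hl1 1).differentiable (by norm_num)
  have hEz : ∀ z, S.Ez z = (-(1 / 2) : ℂ) * dz l z * S.E z := by
    intro z
    rw [← (Fin2_dz_of_hasW (S.hasW_E z)).1, hE, (G2_exp _ z ((hd0 z).const_mul _)).1,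
      (G2_const_mul _ _ z (hd0 z)).1]
  have hEb : ∀ z, S.Eb z = (-(1 / 2) : ℂ) * dzb l z * S.E z := by
    intro z
    rw [← (Fin2_dz_of_hasW (S.hasW_E z)).2, hE, (G2_exp _ z ((hd0 z).const_mul _)).2,
      (G2_const_mul _ _ z (hd0 z)).2]
  have hEd : Differentiable ℝ S.E := S.smooth_E.differentiable (by simp)
  have hEzb : ∀ z, S.Ezb z = (-(1 / 2) : ℂ) * dz l z * S.Eb z + (1 / 4) * exp (l z) * S.E z := by
    intro z
    have h1 : S.Ez = fun z => ((-(1 / 2) : ℂ) * dz l z) * S.E z := funext hEz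
    have h2 := (Fin2_dz_of_hasW (S.hasW_Ez z)).2
    rw [← h2, h1, (G2_mul _ S.E z ((hd1 z).const_mul _) (hEd z)).2,
      (G2_const_mul _ _ z (hd1 z)).2, (G2_mixed l (hl0 2) z).1, hL z,
      (Fin2_dz_of_hasW (S.hasW_E z)).2]
    ring
  have hkap : ∀ z, S.kap z / S.E z ^ 2 = (1 / 4) * exp (l z) := by
    intro z
    rw [← S.kap_eq z, hEzb z, hEz z]
    have h0 : S.E z ≠ 0 := S.hE z
    field_simp
    ring
  have hcont : Continuous fun z => exp (l z) := (hl0 0).continuous.cexp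
  have hA : ∀ z, 0 ≤ Pool.Agent.Lib.MP_364e81_gt.area S.x z := fun z => by
    rw [S.area_x]
    exact (S.N_pos z).le
  have hre1 : Integrable fun z => (exp (l z)).re := by
    refine ⟨(continuous_re.comp hcont).aestronglyMeasurable, ?_⟩
    rw [hasFiniteIntegral_iff_norm]
    simpa only [Real.norm_eq_abs] using hre
  obtain ⟨C, hC⟩ := hC
  have hcomp : Pool.Agent.Lib.MP_364e81_gt.IsCompleteSurface S.x := by
    refine S.isComplete (c := Real.exp (-C / 2)) (Real.exp_pos _) (fun z => ?_)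
    rw [hE]
    simp only
    rw [Complex.norm_exp]
    have h1 : (0 : ℝ) < 1 + ‖z‖ := by positivity
    have h2 : ((-(1 / 2) : ℂ) * l z).re = -(l z).re / 2 := by
      have : (-(1 / 2) : ℂ) = ((-(1 / 2) : ℝ) : ℂ) := by push_cast; ring
      rw [this, re_ofReal_mul]
      ring
    rw [h2]
    have h3 : 0 ≤ Real.log (1 + ‖z‖) := Real.log_nonneg (by linarith [norm_nonneg z])
    calc Real.exp (-C / 2) ≤ Real.exp (-(l z).re / 2 + Real.log (1 + ‖z‖)) := by
          apply Real.exp_le_exp.2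
          have := hC z
          linarith
      _ = _ := by rw [Real.exp_add, Real.exp_log h1]
  refine ⟨S.x, S.e3, S.e4, S.smooth_x, S.isSpacelike, S.isStationary, hcomp,
    S.isNormalFrame, ?_, ?_⟩
  · refine hre1.abs.congr (Filter.Eventually.of_forall fun z => ?_)
    simp only
    rw [← abs_of_nonneg (hA z), ← abs_mul, S.gaussK_area, hkap, abs_mul]
    have h4 : ((1 / 4 : ℂ) * exp (l z)).re = 1 / 4 * (exp (l z)).re := by
      have : (1 / 4 : ℂ) = ((1 / 4 : ℝ) : ℂ) := by push_cast; ring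
      rw [this, re_ofReal_mul]
    rw [h4, abs_mul]
    norm_num
    ring
  · rw [← him]
    congr 1
    funext z
    congr 1
    rw [← abs_of_nonneg (hA z), ← abs_mul, S.normalK_area, hkap, abs_mul]
    have h4 : ((1 / 4 : ℂ) * exp (l z)).im = 1 / 4 * (exp (l z)).im := by
      have : (1 / 4 : ℂ) = ((1 / 4 : ℝ) : ℂ) := by push_cast; ring
      rw [this, im_ofReal_mul]
    rw [h4, abs_mul]
    norm_num
    ring

/-- The counterexample. -/
theorem main2 :
    ∃ x e3 e4 : ℂ → Fin 4 → ℝ,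
      ContDiff ℝ (⊤ : ℕ∞) x ∧ Pool.Agent.Lib.MP_364e81_gt.IsSpacelike x ∧
      Pool.Agent.Lib.MP_364e81_gt.IsStationary x ∧
      Pool.Agent.Lib.MP_364e81_gt.IsCompleteSurface x ∧
      Pool.Agent.Lib.MP_364e81_gt.IsNormalFrame x e3 e4 ∧
      Integrable (fun z => |Pool.Agent.Lib.MP_364e81_gt.gaussK x z| *
        Pool.Agent.Lib.MP_364e81_gt.area x z) ∧
      ∫⁻ z, ENNReal.ofReal (|Pool.Agent.Lib.MP_364e81_gt.normalK x e3 e4 z| *
        Pool.Agent.Lib.MP_364e81_gt.area x z) = ⊤ := by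
  obtain ⟨l, hl, hL, hC, hre, him⟩ := exists_liouville
  exact surface_of_liouville hl hL hC hre him

end Pool.Agent.StatSurf
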