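import Pool.Agent.Lib.MP_fcf01e_gt.Mg.G003

/-! # Task H2: the linear operator `k ↦ ∑ pot m (μ k)` -/

open Complex MeasureTheory

namespace Pool.Agent.StatSurf

/-- The summed potential. -/
noncomputable def Pot (g k : ℂ → ℂ) (z : ℂ) : ℂ := ∑' m, pot m (fun ζ => mu g ζ * k ζ) z

/-- the bounds of the derivatives -/
private noncomputable def h2u (B : ℝ) (m : ℕ) : ℝ := (1 / 2) ^ m * B + (if m = 0 then 960 * B else 0)

private theorem h2u_hasSum (B : ℝ) : HasSum (h2u B) (962 * B) := by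
  have h1 : HasSum (fun m : ℕ => (1 / 2 : ℝ) ^ m * B) (2 * B) := hasSum_geometric_two.mul_right B
  have h2 : HasSum (fun m : ℕ => (if m = 0 then 960 * B else 0 : ℝ)) (960 * B) :=
    hasSum_ite_eq 0 (960 * B)
  have h3 := h1.add h2
  have e : 2 * B + 960 * B = 962 * B := by ring
  rw [e] at h3
  exact h3

private theorem h2_dpot_le' {g : ℂ → ℂ} (hg : Phase g) {k : ℂ → ℂ} {B : ℝ} (h : Adm k B) (m : ℕ)
    (z : ℂ) : ‖dpot m (fun ζ => mu g ζ * k ζ) z‖ ≤ h2u B m * (1 / (1 + ‖z‖)) := by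
  have hB := h.nonneg
  have hz : 0 < 1 + ‖z‖ := by positivity
  have hz' : 0 ≤ 1 / (1 + ‖z‖) := by positivity
  by_cases hm : m = 0
  · subst hm
    have h1 := (norm_V_zero_le hg.diff h z).2.2
    refine h1.trans ?_
    unfold h2u
    rw [if_pos rfl, pow_zero, one_mul, mul_one_div]
    exact div_le_div_of_nonneg_right (by linarith) hz.le
  · have h1 := (norm_V_le hg h m (by omega) z).2.2
    refine h1.trans (le_of_eq ?_)
    unfold h2u
    rw [if_neg hm, add_zero, mul_one_div]

private theorem h2u_nonneg {B : ℝ} (hB : 0 ≤ B) (m : ℕ) : 0 ≤ h2u B m := by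
  unfold h2u
  split_ifs <;> positivity

private theorem h2_dpot_le {g : ℂ → ℂ} (hg : Phase g) {k : ℂ → ℂ} {B : ℝ} (h : Adm k B) (m : ℕ)
    (z : ℂ) : ‖dpot m (fun ζ => mu g ζ * k ζ) z‖ ≤ h2u B m := by
  refine (h2_dpot_le' hg h m z).trans ?_
  have h1 : 1 / (1 + ‖z‖) ≤ 1 := by
    rw [div_le_one (by positivity)]
    have := norm_nonneg z
    linarith
  calc h2u B m * (1 / (1 + ‖z‖)) ≤ h2u B m * 1 :=
        mul_le_mul_of_nonneg_left h1 (h2u_nonneg h.nonneg m)
    _ = h2u B m := mul_one _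

private theorem h2_summable_zero {g : ℂ → ℂ} {k : ℂ → ℂ} :
    Summable (fun m => pot m (fun ζ => mu g ζ * k ζ) 0) := by
  refine summable_of_ne_finset_zero (s := {0}) ?_
  intro m hm
  rw [Finset.mem_singleton] at hm
  exact pot_zero m (by omega) _

/-- `|pot m (μ k) z| ≤ (1/2)^m B |z|` for `m ≥ 1`, by integrating the derivative from `0`. -/
theorem summable_pot {g : ℂ → ℂ} (hg : Phase g) {k : ℂ → ℂ} {B : ℝ} (h : Adm k B) (z : ℂ) :
    Summable (fun m => pot m (fun ζ => mu g ζ * k ζ) z) :=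
  summable_of_summable_hasFDerivAt (𝕜 := ℝ) (u := h2u B)
    (f := fun m => pot m (fun ζ => mu g ζ * k ζ))
    (f' := fun m => dpot m (fun ζ => mu g ζ * k ζ)) (x₀ := 0) (h2u_hasSum B).summable
    (fun m x => hasFDerivAt_pot m (h.measurable hg.diff) (h.bound_ring g m) x)
    (fun m x => h2_dpot_le hg h m x) h2_summable_zero z

private theorem h2_hasFDerivAt {g : ℂ → ℂ} (hg : Phase g) {k : ℂ → ℂ} {B : ℝ} (h : Adm k B) (z : ℂ) :
    HasFDerivAt (Pot g k) (∑' m, dpot m (fun ζ => mu g ζ * k ζ) z) z :=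
  hasFDerivAt_tsum (𝕜 := ℝ) (u := h2u B)
    (f := fun m => pot m (fun ζ => mu g ζ * k ζ))
    (f' := fun m => dpot m (fun ζ => mu g ζ * k ζ)) (x₀ := 0) (h2u_hasSum B).summable
    (fun m x => hasFDerivAt_pot m (h.measurable hg.diff) (h.bound_ring g m) x)
    (fun m x => h2_dpot_le hg h m x) h2_summable_zero z

/-- `hasFDerivAt_tsum`. -/
theorem hasSum_dpot {g : ℂ → ℂ} (hg : Phase g) {k : ℂ → ℂ} {B : ℝ} (h : Adm k B) (z : ℂ) :
    HasSum (fun m => dpot m (fun ζ => mu g ζ * k ζ) z) (fderiv ℝ (Pot g k) z) := by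
  rw [(h2_hasFDerivAt hg h z).fderiv]
  exact (Summable.of_norm_bounded (h2u_hasSum B).summable
    (fun m => h2_dpot_le hg h m z)).hasSum

/-- The operator maps `Adm` functions to `Cls` functions. -/
theorem cls_Pot {g : ℂ → ℂ} (hg : Phase g) {k : ℂ → ℂ} {B : ℝ} (h : Adm k B) :
    Cls (Pot g k) (1000 * B) := by
  have hB := h.nonneg
  have hfd : fderiv ℝ (Pot g k) = fun z => ∑' m, dpot m (fun ζ => mu g ζ * k ζ) z := by
    funext z
    exact (h2_hasFDerivAt hg h z).fderiv
  refine ⟨?_, ?_, ?_⟩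
  · rw [contDiff_one_iff_fderiv]
    refine ⟨fun z => (h2_hasFDerivAt hg h z).differentiableAt, ?_⟩
    rw [hfd]
    exact continuous_tsum
      (fun m => continuous_dpot m (h.measurable hg.diff) (h.bound_ring g m))
      (h2u_hasSum B).summable (fun m x => h2_dpot_le hg h m x)
  · have e : Pot g k 0 = pot 0 (fun ζ => mu g ζ * k ζ) 0 := by
      unfold Pot
      refine tsum_eq_single 0 ?_
      intro m hm
      exact pot_zero m (by omega) _
    rw [e]
    have h1 := norm_pot_zero_le (h.measurable hg.diff) (h.bound_ring g 0)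
    refine h1.trans ?_
    push_cast
    nlinarith
  · intro z
    have hz : 0 < 1 + ‖z‖ := by positivity
    have h1 : ‖∑' m, dpot m (fun ζ => mu g ζ * k ζ) z‖ ≤ 962 * B * (1 / (1 + ‖z‖)) :=
      tsum_of_norm_bounded ((h2u_hasSum B).mul_right (1 / (1 + ‖z‖)))
        (fun m => h2_dpot_le' hg h m z)
    rw [hfd]
    refine h1.trans ?_
    rw [mul_one_div]
    exact div_le_div_of_nonneg_right (by linarith) hz.le

private theorem h2_ring_subset (m : ℕ) : ring m ⊆ Metric.ball (0 : ℂ) ((m : ℝ) + 1) := by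
  intro z hz
  rw [mem_ball_zero_iff]
  exact hz.2

private theorem h2_volume_ring_lt (m : ℕ) : volume (ring m) < ⊤ := by
  rw [volume_ring]
  exact ENNReal.ofReal_lt_top

private theorem h2_integrable (m : ℕ) {f : ℂ → ℂ} (hf : Measurable f) {M : ℝ}
    (hM : ∀ ζ ∈ ring m, ‖f ζ‖ ≤ M) (z : ℂ) :
    IntegrableOn (fun ζ => f ζ *
      ((Real.log ‖z - ζ‖ - (if m = 0 then 0 else Real.log ‖ζ‖) : ℝ) : ℂ)) (ring m) := by
  have h1 : IntegrableOn (fun ζ => Real.log ‖z - ζ‖) (ring m) :=
    (integrableOn_log z _).mono_set (h2_ring_subset m)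
  have h2 : IntegrableOn (fun ζ : ℂ => if m = 0 then (0 : ℝ) else Real.log ‖ζ‖) (ring m) := by
    by_cases hm : m = 0
    · simp only [hm, if_true]
      exact integrableOn_zero
    · simp only [hm, if_false]
      have h3 := (integrableOn_log 0 ((m : ℝ) + 1)).mono_set (h2_ring_subset m)
      simpa only [zero_sub, norm_neg] using h3
  have h4 : Integrable (fun ζ => ((Real.log ‖z - ζ‖ -
      (if m = 0 then 0 else Real.log ‖ζ‖) : ℝ) : ℂ)) (volume.restrict (ring m)) :=
    (Integrable.sub h1 h2).ofReal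
  refine Integrable.bdd_mul (c := M) h4 hf.aestronglyMeasurable ?_
  refine (ae_restrict_iff' (measurableSet_ring m)).2 (Filter.Eventually.of_forall ?_)
  intro ζ hζ
  exact hM ζ hζ

theorem Pot_sub {g : ℂ → ℂ} (hg : Phase g) {k k' : ℂ → ℂ} {B B' : ℝ} (h : Adm k B)
    (h' : Adm k' B') (z : ℂ) : Pot g (fun ζ => k ζ - k' ζ) z = Pot g k z - Pot g k' z := by
  unfold Pot
  rw [← Summable.tsum_sub (summable_pot hg h z) (summable_pot hg h' z)]
  refine tsum_congr fun m => ?_
  unfold pot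
  rw [← integral_sub (h2_integrable m (h.measurable hg.diff) (h.bound_ring g m) z)
    (h2_integrable m (h'.measurable hg.diff) (h'.bound_ring g m) z)]
  refine integral_congr_ae (Filter.Eventually.of_forall fun ζ => ?_)
  simp only []
  ring

private theorem h2_om_measurePreserving : MeasurePreserving (fun z : ℂ => om * z) := by
  have hne : om ∈ Metric.sphere (0 : ℂ) 1 := by simp [norm_om]
  let c : Circle := ⟨om, by simpa [Submonoid.unitSphere] using norm_om⟩
  have h := (rotation c).measurePreserving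
  exact h

private theorem h2_om_embedding : MeasurableEmbedding (fun z : ℂ => om * z) := by
  have hne : om ≠ 0 := by
    intro h0
    have := norm_om
    rw [h0, norm_zero] at this
    exact zero_ne_one this
  exact (Homeomorph.mulLeft₀ om hne).measurableEmbedding

/-- The symmetry `k (om z) = conj (k z)` is inherited by the potential. -/
theorem Pot_om {g : ℂ → ℂ} (hg : Phase g) {k : ℂ → ℂ} {B : ℝ} (h : Adm k B)
    (hk : ∀ z, k (om * z) = (starRingEnd ℂ) (k z)) (z : ℂ) :
    Pot g k (om * z) = (starRingEnd ℂ) (Pot g k z) := by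
  unfold Pot
  rw [Complex.conj_tsum]
  refine tsum_congr fun m => ?_
  unfold pot
  rw [← integral_conj]
  have hpre : (fun z : ℂ => om * z) ⁻¹' (ring m) = ring m := by
    ext z
    exact om_mem_ring m z
  have h1 := h2_om_measurePreserving.setIntegral_preimage_emb h2_om_embedding
    (fun ζ => mu g ζ * k ζ *
      ((Real.log ‖om * z - ζ‖ - (if m = 0 then 0 else Real.log ‖ζ‖) : ℝ) : ℂ)) (ring m)
  rw [hpre] at h1
  rw [← h1]
  refine integral_congr_ae (Filter.Eventually.of_forall fun ζ => ?_)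
  simp only []
  rw [mu_om hg.anti, hk, ← mul_sub, norm_mul, norm_mul, norm_om, one_mul, one_mul,
    map_mul, map_mul, Complex.conj_ofReal]

end Pool.Agent.StatSurf
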