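import Pool.Agent.Lib.MP_fcf01e_gt.H2
import Pool.Agent.Lib.MP_fcf01e_gt.Mg.G003

/-! # Task H3: the fixed point -/

open Complex MeasureTheory

namespace Pool.Agent.StatSurf

/-- the contraction -/
private noncomputable def h3T (g w : ℂ → ℂ) (z : ℂ) : ℂ :=
  ((-(1 / 16000) : ℝ) : ℂ) * Pot g (fun ζ => exp (w ζ)) z

/-- the iterates -/
private noncomputable def h3w (g : ℂ → ℂ) : ℕ → ℂ → ℂ
  | 0 => fun _ => 0
  | j + 1 => h3T g (h3w g j)

private theorem h3T_cls {g : ℂ → ℂ} (hg : Phase g) {w : ℂ → ℂ} (h : Cls w (1 / 4)) :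
    Cls (h3T g w) (1 / 16) := by
  have h1 := (cls_Pot hg (adm_exp h)).smul (c := -(1 / 16000))
  refine h1.mono ?_
  rw [abs_neg, abs_of_pos (by norm_num)]
  norm_num

private theorem h3T_diff {g : ℂ → ℂ} (hg : Phase g) {w w' : ℂ → ℂ} (h : Cls w (1 / 4))
    (h' : Cls w' (1 / 4)) {δ : ℝ} (hδ : 0 ≤ δ) (hd : Cls (fun z => w z - w' z) δ) :
    Cls (fun z => h3T g w z - h3T g w' z) (δ / 2) := by
  have h1 := adm_exp_sub h h' hd
  have h2 := (cls_Pot hg h1).smul (c := -(1 / 16000))
  have h3 : (fun z => h3T g w z - h3T g w' z) =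
      fun z => ((-(1 / 16000) : ℝ) : ℂ) * Pot g (fun z => exp (w z) - exp (w' z)) z := by
    funext z
    rw [Pot_sub hg (adm_exp h) (adm_exp h') z]
    unfold h3T
    ring
  rw [h3]
  refine h2.mono ?_
  rw [abs_neg, abs_of_pos (by norm_num)]
  linarith

private theorem h3w_cls {g : ℂ → ℂ} (hg : Phase g) (j : ℕ) : Cls (h3w g j) (1 / 4) := by
  cases j with
  | zero =>
    refine ⟨contDiff_const, ?_, ?_⟩
    · simp [h3w]
    · intro z
      have e : h3w g 0 = fun _ => 0 := rfl
      rw [e, fderiv_const_apply, norm_zero]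
      positivity
  | succ j =>
    have ih : Cls (h3w g j) (1 / 4) := h3w_cls hg j
    exact (h3T_cls hg ih).mono (by norm_num)

private theorem h3w_diff {g : ℂ → ℂ} (hg : Phase g) (j : ℕ) :
    Cls (fun z => h3w g (j + 1) z - h3w g j z) ((1 / 2) ^ (j + 3)) := by
  induction j with
  | zero =>
    have h1 := h3T_cls hg (h3w_cls hg 0)
    have e : (fun z => h3w g (0 + 1) z - h3w g 0 z) = h3T g (h3w g 0) := by
      funext z
      simp [h3w]
    rw [e]
    exact h1.mono (by norm_num)
  | succ j ih =>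
    have h1 := h3T_diff hg (h3w_cls hg (j + 1)) (h3w_cls hg j) (by positivity) ih
    refine h1.mono (le_of_eq ?_)
    rw [pow_succ]
    ring_nf

private theorem h3w_om {g : ℂ → ℂ} (hg : Phase g) (j : ℕ) (z : ℂ) :
    h3w g j (om * z) = (starRingEnd ℂ) (h3w g j z) := by
  induction j generalizing z with
  | zero => simp [h3w]
  | succ j ih =>
    have h1 := Pot_om hg (adm_exp (h3w_cls hg j)) (fun z => by
      rw [ih z, ← Complex.exp_conj]) z
    change h3T g (h3w g j) (om * z) = (starRingEnd ℂ) (h3T g (h3w g j) z)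
    unfold h3T
    rw [h1, map_mul, Complex.conj_ofReal]

/-- The fixed point: iterate `w ↦ - c Pot g (exp w)` from `0`, with `c = 1 / 16000`. -/
theorem exists_sol {g : ℂ → ℂ} (hg : Phase g) : ∃ c : ℝ, 0 < c ∧ ∃ w : ℂ → ℂ, Sol g c w := by
  obtain ⟨W, hW, hlim, hWd⟩ := cls_limit (h3w g) (h3w_cls hg) (h3w_diff hg)
  refine ⟨1 / 16000, by norm_num, W, hW, ?_, ?_⟩
  · intro z
    have h1 : Filter.Tendsto (fun j => h3w g j (om * z)) Filter.atTop (nhds (W (om * z))) :=
      hlim (om * z)
    have h2 : Filter.Tendsto (fun j => h3w g j (om * z)) Filter.atTop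
        (nhds ((starRingEnd ℂ) (W z))) := by
      have h3 := (Complex.continuous_conj.tendsto (W z)).comp (hlim z)
      refine h3.congr fun j => ?_
      exact (h3w_om hg j z).symm
    exact tendsto_nhds_unique h1 h2
  · have hfix : ∀ z, W z = h3T g W z := by
      intro z
      have h1 : Filter.Tendsto (fun j => h3w g (j + 1) z) Filter.atTop (nhds (W z)) :=
        (hlim z).comp (Filter.tendsto_add_atTop_nat 1)
      have h2 : Filter.Tendsto (fun j => h3w g (j + 1) z) Filter.atTop (nhds (h3T g W z)) := by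
        rw [tendsto_iff_norm_sub_tendsto_zero]
        have h3 : Filter.Tendsto
            (fun j : ℕ => (1 / 2 : ℝ) ^ (j + 2) / 2 * (1 + Real.log (1 + ‖z‖)))
            Filter.atTop (nhds 0) := by
          have h4 : Filter.Tendsto (fun j : ℕ => (1 / 2 : ℝ) ^ j) Filter.atTop (nhds 0) :=
            tendsto_pow_atTop_nhds_zero_of_lt_one (by norm_num) (by norm_num)
          have h5 := (h4.comp (Filter.tendsto_add_atTop_nat 2)).mul_const
            (1 / 2 * (1 + Real.log (1 + ‖z‖)))
          rw [zero_mul] at h5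
          refine h5.congr fun j => ?_
          simp only [Function.comp_apply]
          ring
        refine squeeze_zero (fun j => norm_nonneg _) (fun j => ?_) h3
        have h6 := (h3T_diff hg hW (h3w_cls hg j) (by positivity) (hWd j)).growth z
        rw [norm_sub_rev]
        exact h6
      exact tendsto_nhds_unique h1 h2
    intro z
    have hW' : W = fun z => (-(1 / 16000) : ℝ) • Pot g (fun ζ => exp (W ζ)) z := by
      funext z
      rw [Complex.real_smul]
      exact hfix z
    have h1 := (hasSum_dpot hg (adm_exp hW) z).const_smul (-(1 / 16000) : ℝ)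
    have h2 : fderiv ℝ W z = (-(1 / 16000) : ℝ) • fderiv ℝ (Pot g (fun ζ => exp (W ζ))) z := by
      conv_lhs => rw [hW']
      have hd : DifferentiableAt ℝ (Pot g (fun ζ => exp (W ζ))) z :=
        ((cls_Pot hg (adm_exp hW)).c1.differentiable (by norm_num)) z
      exact fderiv_fun_const_smul hd _
    rw [h2]
    exact h1

end Pool.Agent.StatSurf
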