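import Pool.Agent.Lib.MP_fcf01e_gt.Mg.G006
import Pool.Agent.Lib.MP_fcf01e_gt.Mg.G007

/-! # Task R4: existence of the phase -/

open Complex MeasureTheory

namespace Pool.Agent.StatSurf

private theorem tt_pos (m : ℕ) : 0 < tt m := by
  unfold tt
  positivity

private theorem norm_exp_I_sub (x y : ℝ) :
    ‖exp (I * (x : ℂ)) - exp (I * (y : ℂ))‖ ≤ |x - y| := by
  have h1 : exp (I * (x : ℂ)) - exp (I * (y : ℂ)) =
      exp (I * (y : ℂ)) * (exp (I * ((x - y : ℝ) : ℂ)) - 1) := by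
    rw [mul_sub, ← Complex.exp_add, mul_one]
    congr 2
    push_cast
    ring
  rw [h1, norm_mul]
  have h2 : ‖exp (I * (y : ℂ))‖ = 1 := by
    rw [mul_comm]
    exact Complex.norm_exp_ofReal_mul_I y
  rw [h2, one_mul]
  exact Real.norm_exp_I_mul_ofReal_sub_one_le

private theorem exp_I_pi_half_mul {s : ℝ} (hs : s = 1 ∨ s = -1) :
    exp (I * ((Real.pi / 2 * s : ℝ) : ℂ)) = I * (s : ℂ) := by
  rcases hs with rfl | rfl
  · have : I * ((Real.pi / 2 * 1 : ℝ) : ℂ) = (Real.pi / 2 : ℂ) * I := by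
      push_cast; ring
    rw [this, Complex.exp_pi_div_two_mul_I]
    simp
  · have : I * ((Real.pi / 2 * (-1) : ℝ) : ℂ) = (-(Real.pi : ℂ) / 2) * I := by
      push_cast; ring
    rw [this, Complex.exp_neg_pi_div_two_mul_I]
    simp

private theorem measurable_mu {g : ℂ → ℂ} (hg : Differentiable ℂ g) : Measurable (mu g) := by
  unfold mu
  have h := hg.continuous
  fun_prop

private theorem norm_mu (g : ℂ → ℂ) (z : ℂ) : ‖mu g z‖ = 1 := by
  unfold mu
  rw [mul_comm]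
  exact Complex.norm_exp_ofReal_mul_I _

theorem exists_phase : ∃ g : ℂ → ℂ, Phase g := by
  have key : ∀ m : ℕ, ∃ n : ℕ, ∃ η : ℝ, 2 ≤ n ∧ 0 < η ∧ η ≤ (1 / 2) ^ m ∧
      (1 ≤ m → ∀ μ : ℂ → ℂ, Measurable μ →
      (∀ z, ‖μ z‖ ≤ 1) → Near m n η μ → ∀ (k : ℂ → ℂ) (M : ℝ), Measurable k → RadLip m k M →
      ∀ φ : ℂ →L[ℝ] ℂ, ‖φ‖ ≤ 1 →
      (∀ z : ℂ, ‖∫ ζ in ring m, μ ζ * k ζ * φ ((z - ζ)⁻¹)‖ ≤ tt m * M / (1 + ‖z‖)) ∧
      (∀ z : ℂ, 2 * ((m : ℝ) + 1) ≤ ‖z‖ →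
        ‖∫ ζ in ring m, μ ζ * k ζ * φ (ζ ^ 3 / (z ^ 3 * (z - ζ)))‖ ≤ tt m * M / ‖z‖ ^ 4)) := by
    intro m
    by_cases hm : 1 ≤ m
    · obtain ⟨n0, η0, hη0, h⟩ := ring_bounds m hm (tt m) (tt_pos m)
      refine ⟨max n0 2, min η0 ((1 / 2) ^ m), le_max_right _ _, lt_min hη0 (by positivity),
        min_le_right _ _, fun _ => ?_⟩
      exact h (max n0 2) (le_max_left _ _) (min η0 ((1 / 2) ^ m)) (lt_min hη0 (by positivity))
        (min_le_left _ _)
    · exact ⟨2, (1 / 2) ^ m, le_refl _, by positivity, le_refl _, fun h => absurd h hm⟩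
  choose n η hn hη hη2 h using key
  obtain ⟨g, hg, hanti, hnear⟩ := exists_g n (fun m => le_trans (by norm_num) (hn m)) η hη
  have hNear : ∀ m : ℕ, 1 ≤ m → Near m (n m) (η m) (mu g) := by
    intro m hm
    unfold Near
    refine le_trans (measure_mono ?_) (hnear m hm)
    rintro z ⟨hz, hz2⟩
    refine ⟨hz, fun hz3 => hz2 ⟨hz3.1, ?_⟩⟩
    have hs := abs_sg (n m) z hz3.1
    unfold mu
    rw [← exp_I_pi_half_mul hs]
    refine le_trans (norm_exp_I_sub _ _) (le_trans ?_ hz3.2)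
    have h1 : (g z).im - Real.pi / 2 * sg (n m) z =
        (g z - I * ((Real.pi / 2 * sg (n m) z : ℝ) : ℂ)).im := by
      rw [Complex.sub_im, Complex.I_mul_im, Complex.ofReal_re]
    rw [h1]
    exact Complex.abs_im_le_norm _
  refine ⟨g, hg, hanti, ?_, ?_, ?_⟩
  · intro m hm
    refine le_trans (measure_mono ?_) (le_trans (hnear m hm)
      (ENNReal.ofReal_le_ofReal (hη2 m)))
    rintro z ⟨hz, hz2⟩
    refine ⟨hz, fun hz3 => hz2 ?_⟩
    rcases abs_sg (n m) z hz3.1 with hs | hs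
    · left
      have h3 := hz3.2
      rw [hs] at h3
      refine le_trans (le_of_eq ?_) (h3.trans (hη2 m))
      congr 2
      push_cast
      ring
    · right
      have h3 := hz3.2
      rw [hs] at h3
      refine le_trans (le_of_eq ?_) (h3.trans (hη2 m))
      congr 1
      push_cast
      ring
  · intro m hm k M hk hkM φ hφ z
    exact (h m hm (mu g) (measurable_mu hg) (fun z => (norm_mu g z).le) (hNear m hm) k M hk hkM
      φ hφ).1 z
  · intro m hm k M hk hkM φ hφ z hz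
    exact (h m hm (mu g) (measurable_mu hg) (fun z => (norm_mu g z).le) (hNear m hm) k M hk hkM
      φ hφ).2 z hz

end Pool.Agent.StatSurf
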