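import Pool.Agent.Lib.MP_fcf01e_gt.Mg.G003

/-! # Task S3a: the partial derivatives of the solution -/

open Complex MeasureTheory

namespace Pool.Agent.StatSurf

/-- `Vc m f = conj (V m (conj f))`. -/
theorem Vc_eq (m : ℕ) (f : ℂ → ℂ) (z : ℂ) :
    Vc m f z = (starRingEnd ℂ) (V m (fun ζ => (starRingEnd ℂ) (f ζ)) z) := by
  unfold Vc V
  rw [← integral_conj]
  congr 1
  funext ζ
  rw [map_mul, Complex.conj_conj]

/-- Uniform bounds of the transforms of `μ e^w`. -/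
theorem Sol.norm_V_le {g : ℂ → ℂ} {c : ℝ} {w : ℂ → ℂ} (hg : Phase g) (hw : Sol g c w) (m : ℕ)
    (z : ℂ) : ‖V m (fun ζ => mu g ζ * exp (w ζ)) z‖ ≤ 960 * (1 / 2) ^ m ∧
      ‖Vc m (fun ζ => mu g ζ * exp (w ζ)) z‖ ≤ 960 * (1 / 2) ^ m := by
  have hA := adm_exp hw.cls
  have h1 : (1 : ℝ) ≤ 1 + ‖z‖ := by have := norm_nonneg z; linarith
  rcases Nat.eq_zero_or_pos m with hm | hm
  · subst hm
    obtain ⟨a, b, -⟩ := norm_V_zero_le hg.diff hA z
    have h2 : 960 * (1 : ℝ) / (1 + ‖z‖) ≤ 960 * (1 / 2) ^ 0 := by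
      rw [pow_zero]
      exact div_le_self (by norm_num) h1
    exact ⟨a.trans h2, b.trans h2⟩
  · obtain ⟨a, b, -⟩ := Pool.Agent.StatSurf.norm_V_le hg hA m hm z
    have h2 : (1 / 2 : ℝ) ^ m * 1 / (1 + ‖z‖) ≤ 960 * (1 / 2) ^ m := by
      have h3 : (1 / 2 : ℝ) ^ m * 1 / (1 + ‖z‖) ≤ (1 / 2 : ℝ) ^ m * 1 :=
        div_le_self (by positivity) h1
      have h4 : 0 ≤ (1 / 2 : ℝ) ^ m := by positivity
      linarith
    exact ⟨a.trans h2, b.trans h2⟩

private theorem summable_geo : Summable (fun m : ℕ => (960 : ℝ) * (1 / 2) ^ m) :=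
  (summable_geometric_of_lt_one (by norm_num) (by norm_num)).mul_left _

/-- The partial derivatives of the solution. -/
theorem Sol.pd_eq {g : ℂ → ℂ} {c : ℝ} {w : ℂ → ℂ} (hg : Phase g) (hw : Sol g c w) (z : ℂ) :
    pd 0 w z = -(c / 2 : ℂ) * ((∑' m, V m (fun ζ => mu g ζ * exp (w ζ)) z) +
      ∑' m, Vc m (fun ζ => mu g ζ * exp (w ζ)) z) ∧
    pd 1 w z = -(c / 2 : ℂ) * (I * (∑' m, V m (fun ζ => mu g ζ * exp (w ζ)) z) -
      I * ∑' m, Vc m (fun ζ => mu g ζ * exp (w ζ)) z) := by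
  have hV : Summable (fun m => V m (fun ζ => mu g ζ * exp (w ζ)) z) :=
    Summable.of_norm_bounded summable_geo (fun m => (Sol.norm_V_le hg hw m z).1)
  have hVc : Summable (fun m => Vc m (fun ζ => mu g ζ * exp (w ζ)) z) :=
    Summable.of_norm_bounded summable_geo (fun m => (Sol.norm_V_le hg hw m z).2)
  have key : ∀ h : ℂ, fderiv ℝ w z h = -(c / 2 : ℂ) *
      (h * (∑' m, V m (fun ζ => mu g ζ * exp (w ζ)) z) +
      (starRingEnd ℂ) h * ∑' m, Vc m (fun ζ => mu g ζ * exp (w ζ)) z) := by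
    intro h
    have h1 := (hw.eqn z).mapL (ContinuousLinearMap.apply ℝ ℂ h)
    have h2 : HasSum (fun m => -(c / 2 : ℂ) * (h * V m (fun ζ => mu g ζ * exp (w ζ)) z +
        (starRingEnd ℂ) h * Vc m (fun ζ => mu g ζ * exp (w ζ)) z))
        (-(c / 2 : ℂ) * (h * (∑' m, V m (fun ζ => mu g ζ * exp (w ζ)) z) +
      (starRingEnd ℂ) h * ∑' m, Vc m (fun ζ => mu g ζ * exp (w ζ)) z)) :=
      ((hV.hasSum.mul_left h).add (hVc.hasSum.mul_left _)).mul_left _
    refine h1.unique (h2.congr_fun ?_)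
    intro m
    simp only [ContinuousLinearMap.apply_apply, ContinuousLinearMap.smul_apply, dpot,
      ContinuousLinearMap.add_apply, ContinuousLinearMap.id_apply, smul_eq_mul,
      Complex.real_smul]
    simp
    ring
  constructor
  · have e0 : e 0 = 1 := by simp [e]
    rw [pd, key (e 0), e0, map_one]
    ring
  · have e1 : e 1 = I := by simp [e]
    rw [pd, key (e 1), e1, Complex.conj_I]
    ring

end Pool.Agent.StatSurf
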