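import Pool.Agent.Lib.MP_fcf01e_gt.Mg.G007
import Pool.Agent.Lib.MP_fcf01e_gt.S3a

/-! # Task S3: smoothness of the solution and the differential equation -/

open Complex MeasureTheory

namespace Pool.Agent.StatSurf

private theorem S3_mu_contDiff {g : ℂ → ℂ} (hg : Phase g) (n : WithTop ℕ∞) :
    ContDiff ℝ n (mu g) := by
  have h1 : ContDiff ℂ n g := hg.diff.contDiff
  have h2 : ContDiff ℝ n g := h1.restrict_scalars ℝ
  have h3 : ContDiff ℝ n (fun z => (g z).im) := Complex.imCLM.contDiff.comp h2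
  have h4 : ContDiff ℝ n (fun z => ((g z).im : ℂ)) := Complex.ofRealCLM.contDiff.comp h3
  have h5 : ContDiff ℝ n (fun z => exp (I * ((g z).im : ℂ))) := (contDiff_const.mul h4).cexp
  exact h5

private theorem S3_f_contDiff {g : ℂ → ℂ} (hg : Phase g) {w : ℂ → ℂ} {n : WithTop ℕ∞}
    (hw : ContDiff ℝ n w) : ContDiff ℝ n (fun ζ => mu g ζ * exp (w ζ)) :=
  (S3_mu_contDiff hg n).mul hw.cexp

private theorem S3_conj_contDiff {f : ℂ → ℂ} {n : WithTop ℕ∞} (hf : ContDiff ℝ n f) :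
    ContDiff ℝ n (fun ζ => (starRingEnd ℂ) (f ζ)) :=
  (conjCLE : ℂ →L[ℝ] ℂ).contDiff.comp hf

private theorem S3_tsum_conj (u : ℕ → ℂ) :
    ∑' m, (starRingEnd ℂ) (u m) = (starRingEnd ℂ) (∑' m, u m) :=
  (Complex.conj_tsum u).symm

/-- abbreviations for the two sums -/
private theorem S3_Vc {g : ℂ → ℂ} {w : ℂ → ℂ} (z : ℂ) :
    ∑' m, Vc m (fun ζ => mu g ζ * exp (w ζ)) z = (starRingEnd ℂ)
      (∑' m, V m (fun ζ => (starRingEnd ℂ) (mu g ζ * exp (w ζ))) z) := by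
  rw [← S3_tsum_conj]
  exact tsum_congr fun m => Vc_eq m _ z

private theorem S3_bounds {g : ℂ → ℂ} {c : ℝ} {w : ℂ → ℂ} (hg : Phase g) (hw : Sol g c w) :
    Summable (fun m : ℕ => 960 * (1 / 2 : ℝ) ^ m) ∧
    (∀ m z, ‖V m (fun ζ => mu g ζ * exp (w ζ)) z‖ ≤ 960 * (1 / 2 : ℝ) ^ m) ∧
    (∀ m z, ‖V m (fun ζ => (starRingEnd ℂ) (mu g ζ * exp (w ζ))) z‖ ≤ 960 * (1 / 2 : ℝ) ^ m) := by
  refine ⟨?_, fun m z => (hw.norm_V_le hg m z).1, fun m z => ?_⟩
  · exact (summable_geometric_of_lt_one (by norm_num) (by norm_num)).mul_left 960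
  · have h1 := (hw.norm_V_le hg m z).2
    rw [Vc_eq, RCLike.norm_conj] at h1
    exact h1

private theorem S3_fderiv (w : ℂ → ℂ) (z y : ℂ) :
    fderiv ℝ w z y = (y.re : ℂ) * pd 0 w z + (y.im : ℂ) * pd 1 w z := by
  have h1 : y = (y.re : ℝ) • (1 : ℂ) + (y.im : ℝ) • I := by
    apply Complex.ext <;> simp
  conv_lhs => rw [h1]
  rw [map_add, map_smul, map_smul]
  simp [pd, e]

private theorem S3_step {g : ℂ → ℂ} {c : ℝ} {w : ℂ → ℂ} (hg : Phase g) (hw : Sol g c w) (k : ℕ)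
    (hk : 1 ≤ k) (hwk : ContDiff ℝ k w) : ContDiff ℝ (k + 1 : ℕ) w := by
  obtain ⟨hb, hV, hVc⟩ := S3_bounds hg hw
  have hf := S3_f_contDiff hg hwk
  have hA := (cauchy_sum_reg hk hf hb hV).1
  have hB := S3_conj_contDiff (cauchy_sum_reg hk (S3_conj_contDiff hf) hb hVc).1
  have hB' : ContDiff ℝ k (fun z => ∑' m, Vc m (fun ζ => mu g ζ * exp (w ζ)) z) := by
    have : (fun z => ∑' m, Vc m (fun ζ => mu g ζ * exp (w ζ)) z) = fun z => (starRingEnd ℂ)
      (∑' m, V m (fun ζ => (starRingEnd ℂ) (mu g ζ * exp (w ζ))) z) := funext fun z => S3_Vc z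
    rw [this]
    exact hB
  have h0 : ContDiff ℝ k (pd 0 w) := by
    have : pd 0 w = fun z => -(c / 2 : ℂ) * ((∑' m, V m (fun ζ => mu g ζ * exp (w ζ)) z) +
      ∑' m, Vc m (fun ζ => mu g ζ * exp (w ζ)) z) := funext fun z => (hw.pd_eq hg z).1
    rw [this]
    exact contDiff_const.mul (hA.add hB')
  have h1 : ContDiff ℝ k (pd 1 w) := by
    have : pd 1 w = fun z => -(c / 2 : ℂ) * (I * (∑' m, V m (fun ζ => mu g ζ * exp (w ζ)) z) -
      I * ∑' m, Vc m (fun ζ => mu g ζ * exp (w ζ)) z) := funext fun z => (hw.pd_eq hg z).2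
    rw [this]
    exact contDiff_const.mul ((contDiff_const.mul hA).sub (contDiff_const.mul hB'))
  have h2 : ((k + 1 : ℕ) : WithTop ℕ∞) = (k : WithTop ℕ∞) + 1 := by push_cast; rfl
  rw [h2, contDiff_succ_iff_fderiv_apply]
  refine ⟨hw.cls.c1.differentiable (by norm_num), fun h => ?_, fun y => ?_⟩
  · exact absurd h (by exact_mod_cast WithTop.coe_ne_top)
  · have : (fun x => fderiv ℝ w x y) =
        fun x => (y.re : ℂ) * pd 0 w x + (y.im : ℂ) * pd 1 w x := funext fun x => S3_fderiv w x y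
    rw [this]
    exact (contDiff_const.mul h0).add (contDiff_const.mul h1)

/-- Bootstrapping: `w ∈ C^k` implies `w ∈ C^(k+1)` (`cauchy_sum_reg` for `f = μ e^w` and for its
conjugate). -/
theorem Sol.contDiff {g : ℂ → ℂ} {c : ℝ} {w : ℂ → ℂ} (hg : Phase g) (hw : Sol g c w) :
    ContDiff ℝ (⊤ : ℕ∞) w := by
  have h1 : ∀ k : ℕ, ContDiff ℝ ((k + 1 : ℕ) : WithTop ℕ∞) w := by
    intro k
    induction k with
    | zero => exact_mod_cast hw.cls.c1
    | succ k ih => exact S3_step hg hw (k + 1) (by omega) ih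
  rw [contDiff_infty]
  intro n
  exact (h1 n).of_le (by exact_mod_cast Nat.le_succ n)

private theorem S3_pd_lin (i : Fin 2) {A B : ℂ → ℂ} (hA : Differentiable ℝ A)
    (hB : Differentiable ℝ B) (a b : ℂ) (z : ℂ) :
    pd i (fun z => a * A z + b * B z) z = a * pd i A z + b * pd i B z := by
  unfold pd
  have h1 : HasFDerivAt (fun z => a * A z + b * B z) (a • fderiv ℝ A z + b • fderiv ℝ B z) z :=
    ((hA z).hasFDerivAt.const_mul a).add ((hB z).hasFDerivAt.const_mul b)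
  rw [h1.fderiv]
  simp

private theorem S3_pd_conj (i : Fin 2) {A : ℂ → ℂ} (hA : Differentiable ℝ A) (z : ℂ) :
    pd i (fun z => (starRingEnd ℂ) (A z)) z = (starRingEnd ℂ) (pd i A z) := by
  unfold pd
  have h1 : HasFDerivAt (fun z => (starRingEnd ℂ) (A z))
      ((conjCLE : ℂ →L[ℝ] ℂ).comp (fderiv ℝ A z)) z :=
    (conjCLE : ℂ →L[ℝ] ℂ).hasFDerivAt.comp z (hA z).hasFDerivAt
  rw [h1.fderiv]
  simp

/-- The differential equation. -/
theorem Sol.lap_eq {g : ℂ → ℂ} {c : ℝ} {w : ℂ → ℂ} (hg : Phase g) (hw : Sol g c w) (z : ℂ) :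
    lap w z = -(2 * Real.pi * c : ℂ) * (mu g z * exp (w z)) := by
  obtain ⟨hb, hV, hVc⟩ := S3_bounds hg hw
  have hf : ContDiff ℝ (1 : ℕ) (fun ζ => mu g ζ * exp (w ζ)) := by
    have := S3_f_contDiff hg hw.cls.c1
    exact_mod_cast this
  obtain ⟨hA, hA2⟩ := cauchy_sum_reg le_rfl hf hb hV
  obtain ⟨hB, hB2⟩ := cauchy_sum_reg le_rfl (S3_conj_contDiff hf) hb hVc
  set A : ℂ → ℂ := fun z => ∑' m, V m (fun ζ => mu g ζ * exp (w ζ)) z with hAdef
  set B : ℂ → ℂ := fun z => ∑' m, V m (fun ζ => (starRingEnd ℂ) (mu g ζ * exp (w ζ))) z with hBdef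
  have hAd : Differentiable ℝ A := hA.differentiable (by norm_num)
  have hBd : Differentiable ℝ B := hB.differentiable (by norm_num)
  have hCd : Differentiable ℝ (fun z => (starRingEnd ℂ) (B z)) :=
    (S3_conj_contDiff hB).differentiable (by norm_num)
  have e0 : pd 0 w = fun z => -(c / 2 : ℂ) * A z + -(c / 2 : ℂ) * (starRingEnd ℂ) (B z) := by
    funext z
    rw [(hw.pd_eq hg z).1, S3_Vc]
    ring
  have e1 : pd 1 w = fun z => -(c / 2 : ℂ) * I * A z + (c / 2 : ℂ) * I * (starRingEnd ℂ) (B z) := by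
    funext z
    rw [(hw.pd_eq hg z).2, S3_Vc]
    ring
  have hA2z := hA2 z
  have hB2z := congrArg (starRingEnd ℂ) (hB2 z)
  rw [map_add, map_mul, map_mul, map_mul, Complex.conj_I, Complex.conj_conj, Complex.conj_ofReal,
    map_ofNat] at hB2z
  unfold lap
  rw [e0, e1, S3_pd_lin 0 hAd hCd, S3_pd_lin 1 hAd hCd, S3_pd_conj 0 hBd, S3_pd_conj 1 hBd]
  linear_combination (-(c / 2 : ℂ)) * hA2z + (-(c / 2 : ℂ)) * hB2z

end Pool.Agent.StatSurf
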