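import Pool.Agent.Lib.MP_fcf01e_gt.SpGeo

set_option autoImplicit false

/-!
Gaussian curvature, normal frame and normal curvature of the surface.
-/

namespace Pool.Agent.Lib.MP_fcf01e_gt

open Pool.Agent.Lib.MP_364e81_gt

open Complex MeasureTheory Filter Topology ComplexConjugate
open scoped ContDiff

namespace Sp

variable (S : Sp)

noncomputable section

/-! ### Gaussian curvature -/

def Pz (z : ℂ) : ℂ := S.Ez z * conj (S.E z) + S.E z * conj (S.Eb z)

def Pb (z : ℂ) : ℂ := S.Eb z * conj (S.E z) + S.E z * conj (S.Ez z)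

def Q (z : ℂ) : ℂ := S.Ezb z * conj (S.E z) + S.Ez z * conj (S.Ez z) +
  S.Eb z * conj (S.Eb z) + S.E z * conj (S.Ezb z)

theorem N_eq : S.N = fun z => (S.E z * conj (S.E z)).re := by
  funext z
  rw [mul_conj, N]
  simp

theorem hasW_N (z : ℂ) : HasW (fun z => S.E z * conj (S.E z)) (S.Pz z) (S.Pb z) z :=
  (S.hasW_E z).mul (S.hasW_E z).conj

theorem pu_N : pu S.N = fun z => (S.Pz z + S.Pb z).re := by
  funext z
  rw [N_eq]
  exact (S.hasW_N z).pu_re

theorem pv_N : pv S.N = fun z => (I * (S.Pz z - S.Pb z)).re := by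
  funext z
  rw [N_eq]
  exact (S.hasW_N z).pv_re

theorem laplace_N (z : ℂ) : pu (pu S.N) z + pv (pv S.N) z = 4 * (S.Q z).re := by
  have h1 := ((S.hasW_Ez z).mul (S.hasW_E z).conj).add ((S.hasW_E z).mul (S.hasW_Eb z).conj)
  have h2 := ((S.hasW_Eb z).mul (S.hasW_E z).conj).add ((S.hasW_E z).mul (S.hasW_Ez z).conj)
  have h3 := (h1.add h2).pu_re
  have h4 := ((h1.sub h2).const_mul I).pv_re
  rw [pu_N, pv_N]
  unfold Pz Pb
  rw [h3, h4]
  simp only [Q, add_re, mul_re, sub_re, I_re, I_im, mul_im, sub_im, add_im, conj_re, conj_im]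
  ring

theorem gaussK_area (z : ℂ) : gaussK S.x z * area S.x z = -4 * (S.kap z / S.E z ^ 2).re := by
  have hN := (S.N_pos z).ne'
  have hE := S.hE z
  have hE' : S.E z ≠ 0 := hE
  have hpu0 : pu (fun _ : ℂ => (0 : ℝ)) = fun _ => 0 := by
    funext z
    simp [pu]
  have hpv0 : pv (fun _ : ℂ => (0 : ℝ)) = fun _ => 0 := by
    funext z
    simp [pv]
  have h1 : gaussK S.x z = -(S.N z * (pu (pu S.N) z + pv (pv S.N) z) - pu S.N z ^ 2 -
      pv S.N z ^ 2) / (2 * S.N z ^ 3) := by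
    unfold gaussK
    rw [gE_x, gG_x, gF_x, Matrix.det_fin_three, Matrix.det_fin_three, hpu0, hpv0]
    simp only [hpu0, Matrix.of_apply, Matrix.cons_val_zero, Matrix.cons_val_one,
      Matrix.cons_val]
    field_simp
    ring
  have h2 : S.kap z / S.E z ^ 2 = S.kap z * conj (S.E z) ^ 2 / ((S.N z : ℂ)) ^ 2 := by
    rw [N, ← mul_conj]
    have : conj (S.E z) ≠ 0 := by simpa using hE'
    field_simp
  have h3 : (S.kap z / S.E z ^ 2).re = (S.kap z * conj (S.E z) ^ 2).re / S.N z ^ 2 := by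
    rw [h2, ← ofReal_pow, div_ofReal_re]
  rw [h1, area_x, laplace_N, pu_N, pv_N, h3, ← kap_eq]
  have h4 : S.N z * (4 * (S.Q z).re) - (S.Pz z + S.Pb z).re ^ 2 -
      (I * (S.Pz z - S.Pb z)).re ^ 2 =
      8 * ((S.E z * S.Ezb z - S.Ez z * S.Eb z) * conj (S.E z) ^ 2).re := by
    simp only [Q, N, Pz, Pb, normSq_apply, add_re, mul_re, sub_re, I_re, I_im, mul_im, sub_im,
      add_im, conj_re, conj_im, pow_two]
    ring
  rw [h4]
  field_simp
  ring

/-! ### The normal frame -/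

/-- The null normal `s s*`, as the real part of these components. -/
def Y : Fin 4 → ℂ → ℂ :=
  ![fun z => (S.s 0 z * conj (S.s 0 z) + S.s 1 z * conj (S.s 1 z)) * (1 / 2),
    fun z => S.s 0 z * conj (S.s 1 z), fun z => -I * (S.s 0 z * conj (S.s 1 z)),
    fun z => (S.s 0 z * conj (S.s 0 z) - S.s 1 z * conj (S.s 1 z)) * (1 / 2)]

/-- The null normal `t̄ tᵀ`, as the real part of these components. -/
def Y' : Fin 4 → ℂ → ℂ :=
  ![fun z => (S.t 0 z * conj (S.t 0 z) + S.t 1 z * conj (S.t 1 z)) * (1 / 2),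
    fun z => S.t 1 z * conj (S.t 0 z), fun z => -I * (S.t 1 z * conj (S.t 0 z)),
    fun z => (S.t 0 z * conj (S.t 0 z) - S.t 1 z * conj (S.t 1 z)) * (1 / 2)]

def dY : Fin 4 → ℂ → ℂ :=
  ![fun z => (S.ds 0 z * conj (S.s 0 z) + S.ds 1 z * conj (S.s 1 z)) * (1 / 2),
    fun z => S.ds 0 z * conj (S.s 1 z), fun z => -I * (S.ds 0 z * conj (S.s 1 z)),
    fun z => (S.ds 0 z * conj (S.s 0 z) - S.ds 1 z * conj (S.s 1 z)) * (1 / 2)]

def bY : Fin 4 → ℂ → ℂ :=
  ![fun z => (S.s 0 z * conj (S.ds 0 z) + S.s 1 z * conj (S.ds 1 z)) * (1 / 2),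
    fun z => S.s 0 z * conj (S.ds 1 z), fun z => -I * (S.s 0 z * conj (S.ds 1 z)),
    fun z => (S.s 0 z * conj (S.ds 0 z) - S.s 1 z * conj (S.ds 1 z)) * (1 / 2)]

def dY' : Fin 4 → ℂ → ℂ :=
  ![fun z => (S.dt 0 z * conj (S.t 0 z) + S.dt 1 z * conj (S.t 1 z)) * (1 / 2),
    fun z => S.dt 1 z * conj (S.t 0 z), fun z => -I * (S.dt 1 z * conj (S.t 0 z)),
    fun z => (S.dt 0 z * conj (S.t 0 z) - S.dt 1 z * conj (S.t 1 z)) * (1 / 2)]

def bY' : Fin 4 → ℂ → ℂ :=
  ![fun z => (S.t 0 z * conj (S.dt 0 z) + S.t 1 z * conj (S.dt 1 z)) * (1 / 2),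
    fun z => S.t 1 z * conj (S.dt 0 z), fun z => -I * (S.t 1 z * conj (S.dt 0 z)),
    fun z => (S.t 0 z * conj (S.dt 0 z) - S.t 1 z * conj (S.dt 1 z)) * (1 / 2)]

theorem hasW_ss (i j : Fin 2) (z : ℂ) : HasW (fun z => S.s i z * conj (S.s j z))
    (S.ds i z * conj (S.s j z)) (S.s i z * conj (S.ds j z)) z := by
  have := (HasW.of_hasDerivAt (S.hs i z)).mul (HasW.of_antiholo (S.hs j z))
  simpa using this

theorem hasW_tt (i j : Fin 2) (z : ℂ) : HasW (fun z => S.t i z * conj (S.t j z))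
    (S.dt i z * conj (S.t j z)) (S.t i z * conj (S.dt j z)) z := by
  have := (HasW.of_hasDerivAt (S.ht i z)).mul (HasW.of_antiholo (S.ht j z))
  simpa using this

theorem hasW_Y (j : Fin 4) (z : ℂ) : HasW (S.Y j) (S.dY j z) (S.bY j z) z := by
  fin_cases j
  · have := ((S.hasW_ss 0 0 z).add (S.hasW_ss 1 1 z)).mul (HasW.const (1 / 2) z)
    simpa [Y, dY, bY] using this
  · exact S.hasW_ss 0 1 z
  · exact (S.hasW_ss 0 1 z).const_mul (-I)
  · have := ((S.hasW_ss 0 0 z).sub (S.hasW_ss 1 1 z)).mul (HasW.const (1 / 2) z)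
    simpa [Y, dY, bY] using this

theorem hasW_Y' (j : Fin 4) (z : ℂ) : HasW (S.Y' j) (S.dY' j z) (S.bY' j z) z := by
  fin_cases j
  · have := ((S.hasW_tt 0 0 z).add (S.hasW_tt 1 1 z)).mul (HasW.const (1 / 2) z)
    simpa [Y', dY', bY'] using this
  · exact S.hasW_tt 1 0 z
  · exact (S.hasW_tt 1 0 z).const_mul (-I)
  · have := ((S.hasW_tt 0 0 z).sub (S.hasW_tt 1 1 z)).mul (HasW.const (1 / 2) z)
    simpa [Y', dY', bY'] using this

def y (z : ℂ) (j : Fin 4) : ℝ := (S.Y j z).re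

def y' (z : ℂ) (j : Fin 4) : ℝ := (S.Y' j z).re

theorem pu_y (z : ℂ) : pu S.y z = fun j => (S.dY j z + S.bY j z).re :=
  pu_vec (F := S.Y) (z := z) (fun j => S.hasW_Y j z)

theorem pv_y (z : ℂ) : pv S.y z = fun j => (I * (S.dY j z - S.bY j z)).re :=
  pv_vec (F := S.Y) (z := z) (fun j => S.hasW_Y j z)

theorem pu_y' (z : ℂ) : pu S.y' z = fun j => (S.dY' j z + S.bY' j z).re :=
  pu_vec (F := S.Y') (z := z) (fun j => S.hasW_Y' j z)

theorem pv_y' (z : ℂ) : pv S.y' z = fun j => (I * (S.dY' j z - S.bY' j z)).re :=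
  pv_vec (F := S.Y') (z := z) (fun j => S.hasW_Y' j z)

theorem diff_y : Differentiable ℝ S.y := fun z =>
  (vec_fderiv (F := S.Y) (fun j => S.hasW_Y j z)).differentiableAt

theorem diff_y' : Differentiable ℝ S.y' := fun z =>
  (vec_fderiv (F := S.Y') (fun j => S.hasW_Y' j z)).differentiableAt

theorem lor_y_y (z : ℂ) : lor (S.y z) (S.y z) = 0 := by
  simp only [lor, y, Y, Matrix.cons_val_zero, Matrix.cons_val_one,
    Matrix.cons_val, add_re, mul_re, sub_re, neg_re, neg_im, I_re, I_im, mul_im, sub_im, add_im,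
    conj_re, conj_im]
  norm_num
  ring

theorem lor_y'_y' (z : ℂ) : lor (S.y' z) (S.y' z) = 0 := by
  simp only [lor, y', Y', Matrix.cons_val_zero, Matrix.cons_val_one,
    Matrix.cons_val, add_re, mul_re, sub_re, neg_re, neg_im, I_re, I_im, mul_im, sub_im, add_im,
    conj_re, conj_im]
  norm_num
  ring

theorem lor_y_y' (z : ℂ) : lor (S.y z) (S.y' z) = -S.N z / 2 := by
  simp only [lor, y, Y, y', Y', N, E, normSq_apply, Matrix.cons_val_zero, Matrix.cons_val_one,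
    Matrix.cons_val, add_re, mul_re, sub_re, neg_re, neg_im, I_re, I_im, mul_im, sub_im, add_im,
    conj_re, conj_im]
  norm_num
  ring

/-- Expansion of the connection form. -/
theorem omega_u_aux (z : ℂ) : lor (pu S.y z) (S.y' z) - lor (pu S.y' z) (S.y z) =
    -((S.Ez z - S.Eb z) * conj (S.E z)).re := by
  rw [pu_y, pu_y']
  simp only [lor, y, Y, y', Y', dY, bY, dY', bY', E, Ez, Eb, Matrix.cons_val_zero,
    Matrix.cons_val_one,
    Matrix.cons_val, add_re, mul_re, sub_re, neg_re, neg_im, I_re, I_im, mul_im, sub_im, add_im,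
    conj_re, conj_im]
  norm_num
  ring

theorem omega_v_aux (z : ℂ) : lor (pv S.y z) (S.y' z) - lor (pv S.y' z) (S.y z) =
    ((S.Ez z + S.Eb z) * conj (S.E z)).im := by
  rw [pv_y, pv_y']
  simp only [lor, y, Y, y', Y', dY, bY, dY', bY', E, Ez, Eb, Matrix.cons_val_zero,
    Matrix.cons_val_one,
    Matrix.cons_val, add_re, mul_re, sub_re, neg_re, neg_im, I_re, I_im, mul_im, sub_im, add_im,
    conj_re, conj_im]
  norm_num
  ring

end

end Sp

end Pool.Agent.Lib.MP_fcf01e_gt
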