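import Pool.Agent.Lib.MP_364e81_gt.Frame

set_option autoImplicit false

/-!
The surface attached to a pair of spinors.
-/

namespace Pool.Agent.Lib.MP_fcf01e_gt

open Pool.Agent.Lib.MP_364e81_gt

open Complex MeasureTheory Filter Topology ComplexConjugate
open scoped ContDiff

/-- Two pairs of entire functions `s`, `t` with `s × t̄` nowhere zero. -/
structure Sp where
  s : Fin 2 → ℂ → ℂ
  ds : Fin 2 → ℂ → ℂ
  dds : Fin 2 → ℂ → ℂ
  t : Fin 2 → ℂ → ℂ
  dt : Fin 2 → ℂ → ℂ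
  ddt : Fin 2 → ℂ → ℂ
  hs : ∀ i z, HasDerivAt (s i) (ds i z) z
  hds : ∀ i z, HasDerivAt (ds i) (dds i z) z
  ht : ∀ i z, HasDerivAt (t i) (dt i z) z
  hdt : ∀ i z, HasDerivAt (dt i) (ddt i z) z
  hE : ∀ z, s 0 z * conj (t 1 z) - s 1 z * conj (t 0 z) ≠ 0

namespace Sp

variable (S : Sp)

noncomputable section

/-- The function `E = s × t̄`. -/
def E (z : ℂ) : ℂ := S.s 0 z * conj (S.t 1 z) - S.s 1 z * conj (S.t 0 z)

def Ez (z : ℂ) : ℂ := S.ds 0 z * conj (S.t 1 z) - S.ds 1 z * conj (S.t 0 z)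

def Eb (z : ℂ) : ℂ := S.s 0 z * conj (S.dt 1 z) - S.s 1 z * conj (S.dt 0 z)

def Ezb (z : ℂ) : ℂ := S.ds 0 z * conj (S.dt 1 z) - S.ds 1 z * conj (S.dt 0 z)

/-- The product of the two Wronskians. -/
def kap (z : ℂ) : ℂ :=
  (S.s 0 z * S.ds 1 z - S.ds 0 z * S.s 1 z) * conj (S.t 0 z * S.dt 1 z - S.dt 0 z * S.t 1 z)

theorem hasW_E (z : ℂ) : HasW S.E (S.Ez z) (S.Eb z) z := by
  have h : HasW S.E _ _ z :=
    ((HasW.of_hasDerivAt (S.hs 0 z)).mul (HasW.of_antiholo (S.ht 1 z))).sub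
    ((HasW.of_hasDerivAt (S.hs 1 z)).mul (HasW.of_antiholo (S.ht 0 z)))
  convert h using 1
  · simp [Ez]
  · simp [Eb]

def Ezz (z : ℂ) : ℂ := S.dds 0 z * conj (S.t 1 z) - S.dds 1 z * conj (S.t 0 z)

def Ebb (z : ℂ) : ℂ := S.s 0 z * conj (S.ddt 1 z) - S.s 1 z * conj (S.ddt 0 z)

theorem hasW_Ez (z : ℂ) : HasW S.Ez (S.Ezz z) (S.Ezb z) z := by
  have h : HasW S.Ez _ _ z := ((HasW.of_hasDerivAt (S.hds 0 z)).mul (HasW.of_antiholo (S.ht 1 z))).sub
    ((HasW.of_hasDerivAt (S.hds 1 z)).mul (HasW.of_antiholo (S.ht 0 z)))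
  convert h using 1
  · simp [Ezz]
  · simp [Ezb]

theorem hasW_Eb (z : ℂ) : HasW S.Eb (S.Ezb z) (S.Ebb z) z := by
  have h : HasW S.Eb _ _ z :=
    ((HasW.of_hasDerivAt (S.hs 0 z)).mul (HasW.of_antiholo (S.hdt 1 z))).sub
    ((HasW.of_hasDerivAt (S.hs 1 z)).mul (HasW.of_antiholo (S.hdt 0 z)))
  convert h using 1
  · simp [Ezb]
  · simp [Ebb]

theorem kap_eq (z : ℂ) : S.E z * S.Ezb z - S.Ez z * S.Eb z = S.kap z := by
  simp only [E, Ez, Eb, Ezb, kap, map_sub, map_mul]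
  ring

/-! ### The surface -/

theorem exists_A (i j : Fin 2) : ∃ A : ℂ → ℂ, ∀ z, HasDerivAt A (S.s i z * S.t j z) z := by
  have h : Differentiable ℂ fun z => S.s i z * S.t j z := fun z =>
    ((S.hs i z).mul (S.ht j z)).differentiableAt
  obtain ⟨A, hA⟩ := h.isExactOn_univ
  exact ⟨A, fun z => hA z (Set.mem_univ z)⟩

/-- A primitive of `s_i t_j`. -/
def A (i j : Fin 2) : ℂ → ℂ := (S.exists_A i j).choose

theorem hasDerivAt_A (i j : Fin 2) (z : ℂ) :
    HasDerivAt (S.A i j) (S.s i z * S.t j z) z := (S.exists_A i j).choose_spec z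

/-- The components of the holomorphic curve. -/
def F : Fin 4 → ℂ → ℂ :=
  ![fun z => S.A 0 0 z + S.A 1 1 z, fun z => S.A 0 1 z + S.A 1 0 z,
    fun z => -I * (S.A 0 1 z - S.A 1 0 z), fun z => S.A 0 0 z - S.A 1 1 z]

def dF : Fin 4 → ℂ → ℂ :=
  ![fun z => S.s 0 z * S.t 0 z + S.s 1 z * S.t 1 z,
    fun z => S.s 0 z * S.t 1 z + S.s 1 z * S.t 0 z,
    fun z => -I * (S.s 0 z * S.t 1 z - S.s 1 z * S.t 0 z),
    fun z => S.s 0 z * S.t 0 z - S.s 1 z * S.t 1 z]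

/-- The derivative of `s_i t_j`. -/
def dst (i j : Fin 2) (z : ℂ) : ℂ := S.ds i z * S.t j z + S.s i z * S.dt j z

def ddF : Fin 4 → ℂ → ℂ :=
  ![fun z => S.dst 0 0 z + S.dst 1 1 z, fun z => S.dst 0 1 z + S.dst 1 0 z,
    fun z => -I * (S.dst 0 1 z - S.dst 1 0 z), fun z => S.dst 0 0 z - S.dst 1 1 z]

theorem hasDerivAt_F (j : Fin 4) (z : ℂ) : HasDerivAt (S.F j) (S.dF j z) z := by
  fin_cases j
  · exact (S.hasDerivAt_A 0 0 z).add (S.hasDerivAt_A 1 1 z)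
  · exact (S.hasDerivAt_A 0 1 z).add (S.hasDerivAt_A 1 0 z)
  · exact ((S.hasDerivAt_A 0 1 z).sub (S.hasDerivAt_A 1 0 z)).const_mul (-I)
  · exact (S.hasDerivAt_A 0 0 z).sub (S.hasDerivAt_A 1 1 z)

theorem hasDerivAt_st (i j : Fin 2) (z : ℂ) :
    HasDerivAt (fun z => S.s i z * S.t j z) (S.dst i j z) z := (S.hs i z).mul (S.ht j z)

theorem hasDerivAt_dF (j : Fin 4) (z : ℂ) : HasDerivAt (S.dF j) (S.ddF j z) z := by
  fin_cases j
  · exact (S.hasDerivAt_st 0 0 z).add (S.hasDerivAt_st 1 1 z)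
  · exact (S.hasDerivAt_st 0 1 z).add (S.hasDerivAt_st 1 0 z)
  · exact ((S.hasDerivAt_st 0 1 z).sub (S.hasDerivAt_st 1 0 z)).const_mul (-I)
  · exact (S.hasDerivAt_st 0 0 z).sub (S.hasDerivAt_st 1 1 z)

/-- The surface. -/
def x (z : ℂ) (j : Fin 4) : ℝ := (S.F j z).re

theorem pu_x : pu S.x = fun z j => (S.dF j z).re := by
  funext z
  have := pu_vec (F := S.F) (z := z) (fun j => HasW.of_hasDerivAt (S.hasDerivAt_F j z))
  simp only [add_zero] at this
  exact this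

theorem pv_x : pv S.x = fun z j => (I * S.dF j z).re := by
  funext z
  have := pv_vec (F := S.F) (z := z) (fun j => HasW.of_hasDerivAt (S.hasDerivAt_F j z))
  simp only [sub_zero] at this
  exact this

theorem pu_pu_x : pu (pu S.x) = fun z j => (S.ddF j z).re := by
  rw [pu_x]
  funext z
  have := pu_vec (F := S.dF) (z := z) (fun j => HasW.of_hasDerivAt (S.hasDerivAt_dF j z))
  simpa using this

theorem pv_pv_x : pv (pv S.x) = fun z j => -(S.ddF j z).re := by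
  rw [pv_x]
  funext z
  have := pv_vec (F := fun j z => I * S.dF j z) (z := z)
    (fun j => (HasW.of_hasDerivAt (S.hasDerivAt_dF j z)).const_mul I)
  rw [this]
  funext j
  rw [mul_zero, sub_zero, ← mul_assoc, I_mul_I]
  simp

/-- Squared modulus of `E`. -/
def N (z : ℂ) : ℝ := normSq (S.E z)

theorem N_pos (z : ℂ) : 0 < S.N z := normSq_pos.mpr (S.hE z)

theorem gE_x : gE S.x = S.N := by
  funext z
  unfold gE
  rw [pu_x]
  simp only [lor, N, E, dF, normSq_apply, Matrix.cons_val_zero, Matrix.cons_val_one,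
    Matrix.cons_val, add_re, mul_re, sub_re, neg_re, neg_im, I_re, I_im, mul_im, sub_im, add_im,
    conj_re, conj_im]
  ring

theorem gG_x : gG S.x = S.N := by
  funext z
  unfold gG
  rw [pv_x]
  simp only [lor, N, E, dF, normSq_apply, Matrix.cons_val_zero, Matrix.cons_val_one,
    Matrix.cons_val, add_re, mul_re, sub_re, neg_re, neg_im, I_re, I_im, mul_im, sub_im, add_im,
    conj_re, conj_im]
  ring

theorem gF_x : gF S.x = fun _ => 0 := by
  funext z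
  unfold gF
  rw [pu_x, pv_x]
  simp only [lor, dF, Matrix.cons_val_zero, Matrix.cons_val_one,
    Matrix.cons_val, add_re, mul_re, sub_re, neg_re, neg_im, I_re, I_im, mul_im, sub_im, add_im]
  ring

theorem isSpacelike : IsSpacelike S.x := by
  intro z
  rw [gE_x, gF_x, gG_x]
  have := S.N_pos z
  refine ⟨this, ?_⟩
  rw [show S.N z * S.N z - 0 ^ 2 = S.N z * S.N z by ring]
  positivity

theorem area_x : area S.x = S.N := by
  funext z
  unfold area
  rw [gE_x, gF_x, gG_x]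
  have := S.N_pos z
  simp only
  rw [show S.N z * S.N z - 0 ^ 2 = S.N z ^ 2 by ring]
  exact Real.sqrt_sq this.le

theorem isStationary : IsStationary S.x := by
  intro z n _ _
  rw [gE_x, gF_x, gG_x, pu_pu_x, pv_pv_x]
  simp only [lor, Pi.add_apply, Pi.sub_apply, Pi.smul_apply, smul_eq_mul, mul_zero, zero_mul,
    mul_neg]
  ring

theorem speed_x (γ : ℝ → ℂ) (t : ℝ) : speed S.x γ t = ‖S.E (γ t)‖ * ‖deriv γ t‖ := by
  unfold speed
  rw [gE_x, gF_x, gG_x]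
  simp only
  have h : S.N (γ t) * (deriv γ t).re ^ 2 + 2 * 0 * (deriv γ t).re * (deriv γ t).im +
      S.N (γ t) * (deriv γ t).im ^ 2 = (‖S.E (γ t)‖ * ‖deriv γ t‖) ^ 2 := by
    rw [mul_pow, N, ← Complex.normSq_eq_norm_sq, ← Complex.normSq_eq_norm_sq,
      normSq_apply (deriv γ t)]
    ring
  rw [h]
  exact Real.sqrt_sq (by positivity)

end

end Sp

end Pool.Agent.Lib.MP_fcf01e_gt
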